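import Pool.Agent.Helper51.BW.Base

/-!
# Stage 2 of swarm BW: convergence in probability, no assumption on the existence of the speed
-/

open MeasureTheory Filter Topology

namespace Pool.Agent.Helper51.BW

/-- `Y` visits `y`, and before its first visit of `y` it visits `z` fewer than `l` times -/
def VisB {d : ℕ} (Y : ℕ → V d) (l : ℕ) (z y : V d) : Prop :=
  ∃ n, Y n = y ∧ (∀ s < n, Y s ≠ y) ∧ ((Finset.range n).filter (fun s => Y s = z)).card < l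

/-- almost sure properties of all walks -/
def Reg2 {d : ℕ} {Ω : Type} (X : ℕ → ℕ → Ω → V d) (ω : Ω) : Prop :=
  (∀ m, PathHyp (fun n => X m n ω)) ∧
  (∀ m n, Trace (fun s => X m s ω) (X (m + 1) n ω) (X (m + 1) (n + 1) ω))

open Classical in
/-- the good `k` of the path `S` -/
noncomputable def KKs {d : ℕ} (W : Finset ℕ) (Th : ℕ → (ℕ → V d) → Prop) (S : ℕ → V d) :
    Finset ℕ := W.filter (fun k => Th k S)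

open Classical in
/-- the level: a number of visits which is exceeded with high probability -/
noncomputable def lvl {d : ℕ} (W : Finset ℕ) (h : Fin d → ℝ) (κ : ℝ)
    (Th : ℕ → (ℕ → V d) → Prop) (j : ℕ) (S : ℕ → V d) : ℕ :=
  if (KKs W Th S).Nonempty then
    ⌊κ * ∑ k ∈ KKs W Th S, Real.exp (ip h (S j - S (j + k)))⌋₊ + 1
  else 0

/-- `Q` depends only on the increments of the path at times in `[j-L, j+L)` -/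
def LocDep {d : ℕ} {β : Type} (j L : ℕ) (Q : (ℕ → V d) → β) : Prop :=
  ∀ S S' : ℕ → V d, (∀ t, j ≤ t + L → t < j + L → S (t + 1) - S t = S' (t + 1) - S' t) →
    Q S = Q S'

/-- the events `Th j k` are local up to long returns of the path near time `j` -/
def Loc {d : ℕ} (W : Finset ℕ) (Th : ℕ → ℕ → (ℕ → V d) → Prop) : Prop :=
  ∃ (ThL : ℕ → ℕ → ℕ → (ℕ → V d) → Prop) (A : ℕ),
    (∀ L j k, k ∈ W → A ≤ L → LocDep j L (ThL L j k)) ∧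
    (∀ L j k S, k ∈ W → A ≤ L → Th j k S → ThL L j k S) ∧
    (∀ L j k S, k ∈ W → A ≤ L → PathHyp S → ThL L j k S → ¬ Th j k S →
      ∃ s t, s ≤ j + A ∧ j ≤ t + A ∧ s + L ≤ t + A ∧ S s = S t)

/-- bound of the probability of few visits, given the first walk -/
def QBP {d : ℕ} {Ω : Type} [MeasurableSpace Ω] (μ : Measure Ω) (X : ℕ → ℕ → Ω → V d) (i : ℕ)
    (h : Fin d → ℝ) (W : Finset ℕ) (Th : ℕ → (ℕ → V d) → Prop) (j N : ℕ) (κ η1 : ℝ) : Prop :=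
  ∀ (K' : Finset ℕ) (s : ℕ → V d) (E : Set Ω) (l : ℕ), K' ⊆ W → K'.Nonempty →
    MeasurableSet[sig0 X] E →
    (∀ ω ∈ E, (∀ t ≤ N, X 0 t ω = s t) ∧ ∀ k ∈ W, (k ∈ K' ↔ Th k (fun n => X 0 n ω))) →
    1 ≤ l → (l : ℝ) - 1 ≤ κ * ∑ k ∈ K', Real.exp (ip h (s j - s (j + k))) →
    μ (E ∩ {ω | VisB (fun n => X i n ω) l (s j) (s (j + K'.sup id + 1))}) ≤
      ENNReal.ofReal η1 * μ E

/-- the input of the final argument -/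
def PROP {d : ℕ} {Ω : Type} [MeasurableSpace Ω] (μ : Measure Ω) (X : ℕ → ℕ → Ω → V d) (i : ℕ)
    (h : Fin d → ℝ) : Prop :=
  ∀ η1 > (0 : ℝ), ∀ M : ℝ, ∃ (κ : ℝ) (W : Finset ℕ) (Th : ℕ → ℕ → (ℕ → V d) → Prop) (j0 : ℕ),
    0 < κ ∧ (∀ k ∈ W, 1 ≤ k) ∧
    (∀ j, ∀ k ∈ W, MeasurableSet[sig0 X] {ω | Th j k (fun n => X 0 n ω)}) ∧
    (∀ j, ∀ k ∈ W, ∀ S, Th j k S → IsCut S (j + k) ∧ ∀ s < j, S s ≠ S j) ∧
    Loc W Th ∧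
    (∀ j ≥ j0, ∀ N, (∀ k ∈ W, j + k + 1 ≤ N) → QBP μ X i h W (Th j) j N κ η1) ∧
    (∀ j ≥ j0, M ≤ ∫ ω, (lvl W h κ (Th j) j (fun n => X 0 n ω) : ℝ) ∂μ)

/-- almost sure regularity (from Helper60/BW/REG: `det` there) -/
def S_REG2 : Prop := ∀ (d : ℕ) (Ω : Type) [MeasurableSpace Ω] (μ : Measure Ω)
  [IsProbabilityMeasure μ] (p : ℕ → D d → ℝ) (X : ℕ → ℕ → Ω → V d), (∀ i e, 0 < p i e) →
  (∀ i, ∑ e, p i e = 1) → IsIterated μ p X → ∀ᵐ ω ∂μ, Reg2 X ω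

/-- few visits, first type (adapt Helper16/BW/QL1; uses ONE STG2a REG2 CUTE) -/
def S_QB1 : Prop := ∀ (d : ℕ) (Ω : Type) [MeasurableSpace Ω] (μ : Measure Ω)
  [IsProbabilityMeasure μ] (p : ℕ → D d → ℝ) (X : ℕ → ℕ → Ω → V d), (∀ i e, 0 < p i e) →
  (∀ i, ∑ e, p i e = 1) → IsIterated μ p X → ∀ (i : ℕ), 1 ≤ i →
  ∀ (s : ℕ → V d) (j N : ℕ) (K : Finset ℕ) (pm lam : ℝ) (E : Set Ω) (l : ℕ),
  0 < pm → 0 ≤ lam → (∀ m ≤ i, ∀ e, pm ≤ p m e) → MeasurableSet[sig0 X] E → K.Nonempty →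
  (∀ k ∈ K, 1 ≤ k ∧ j + k + 1 ≤ N) →
  (∀ ω ∈ E, (∀ t ≤ N, X 0 t ω = s t) ∧ IsCut (fun n => X 0 n ω) j ∧
    ∀ k ∈ K, IsCut (fun n => X 0 n ω) (j + k)) → 1 ≤ l →
  (l : ℝ) - 1 ≤ lam * pm * ∑ k ∈ K, Real.exp (ip (lhat (p i)) (s j - s (j + k))) →
  μ (E ∩ {ω | VisB (fun n => X i n ω) l (s j) (s (j + K.sup id + 1))}) ≤
    ENNReal.ofReal lam * μ E

/-- intermediate walks, on the event that they cross the bridge (adapt Helper29/BW/HITM; uses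
ONE STG1 CONN CUTE REG2) -/
def S_HITM2 : Prop := ∀ (d : ℕ) (Ω : Type) [MeasurableSpace Ω] (μ : Measure Ω)
  [IsProbabilityMeasure μ] (p : ℕ → D d → ℝ) (X : ℕ → ℕ → Ω → V d), (∀ i e, 0 < p i e) →
  (∀ i, ∑ e, p i e = 1) → IsIterated μ p X → ∀ (i : ℕ),
  ∀ (s : ℕ → V d) (a j b : ℕ) (u : Fin d → ℝ) (θ : ℕ → ℝ) (Γ ε pm : ℝ) (E : Set Ω),
  a < j → j ≤ b → 0 < pm → (∀ m ≤ i, ∀ e, pm ≤ p m e) → MeasurableSet[sig0 X] E →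
  (∀ ω ∈ E, (∀ t ≤ b + 1, X 0 t ω = s t) ∧ IsCut (fun n => X 0 n ω) a ∧
    IsCut (fun n => X 0 n ω) b) →
  (∀ t, a ≤ t → t ≤ j → θ 0 ≤ ip u (s t - s b)) → (∀ m ≤ i, 0 < θ m) →
  (∀ m < i, θ (m + 1) ≤ θ m) →
  (∀ m < i, ∀ t t', a ≤ t → t ≤ b → a ≤ t' → t' ≤ b → θ m ≤ ip u (s t - s b) →
    ip u (s t' - s b) < θ (m + 1) →
    ip (lhat (p (m + 1))) (s t') + Γ ≤ ip (lhat (p (m + 1))) (s t)) →
  ((b : ℝ) - a + 1) ^ 2 * Real.sqrt (Real.exp (-Γ) / pm) ≤ ε →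
  ∀ m ≤ i, μ (E ∩ {ω | (∃ n, X m n ω = s (b + 1)) ∧
      ¬ Hit (fun n => X m n ω) (s j) (lowSet s a b u (θ m))}) ≤
    ENNReal.ofReal (m * ε) * μ E

/-- few visits, second type (adapt Helper78/BW/QL2; uses ONE STG2b CONN CUTE REG2 HITM2) -/
def S_QB2 : Prop := ∀ (d : ℕ) (Ω : Type) [MeasurableSpace Ω] (μ : Measure Ω)
  [IsProbabilityMeasure μ] (p : ℕ → D d → ℝ) (X : ℕ → ℕ → Ω → V d), (∀ i e, 0 < p i e) →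
  (∀ i, ∑ e, p i e = 1) → IsIterated μ p X → ∀ (i : ℕ), 1 ≤ i →
  ∀ (s : ℕ → V d) (a j k1 N : ℕ) (u : Fin d → ℝ) (θ : ℕ → ℝ) (Γ ε pm lam : ℝ) (K : Finset ℕ)
  (E : Set Ω) (l : ℕ),
  a < j → 0 < pm → 0 ≤ lam → (∀ m ≤ i, ∀ e, pm ≤ p m e) → MeasurableSet[sig0 X] E → k1 ∈ K →
  (∀ k ∈ K, 1 ≤ k ∧ j + k + 1 ≤ N) →
  (∀ ω ∈ E, (∀ t ≤ N, X 0 t ω = s t) ∧ IsCut (fun n => X 0 n ω) a ∧
    ∀ k ∈ K, IsCut (fun n => X 0 n ω) (j + k)) →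
  (∀ t, a ≤ t → t ≤ j → θ 0 ≤ ip u (s t - s (j + k1))) → (∀ m ≤ i, 0 < θ m) →
  (∀ m < i, θ (m + 1) ≤ θ m) →
  (∀ m < i, ∀ t t', a ≤ t → t ≤ j + k1 → a ≤ t' → t' ≤ j + k1 →
    θ m ≤ ip u (s t - s (j + k1)) → ip u (s t' - s (j + k1)) < θ (m + 1) →
    ip (lhat (p (m + 1))) (s t') + Γ ≤ ip (lhat (p (m + 1))) (s t)) →
  (((j + k1 : ℕ) : ℝ) - a + 1) ^ 2 * Real.sqrt (Real.exp (-Γ) / pm) ≤ ε →
  1 ≤ l →
  (l : ℝ) - 1 ≤ lam * pm * ∑ k ∈ K, Real.exp (ip (lhat (p i)) (s j - s (j + k))) →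
  μ (E ∩ {ω | VisB (fun n => X i n ω) l (s j) (s (j + K.sup id + 1))}) ≤
    ENNReal.ofReal (i * ε + lam) * μ E

/-- sum over the environment (adapt Helper81/BW/LOWR; uses REG2) -/
def S_BADSUM : Prop := ∀ (d : ℕ) (Ω : Type) [MeasurableSpace Ω] (μ : Measure Ω)
  [IsProbabilityMeasure μ] (p : ℕ → D d → ℝ) (X : ℕ → ℕ → Ω → V d), (∀ i e, 0 < p i e) →
  (∀ i, ∑ e, p i e = 1) → IsIterated μ p X →
  ∀ (i : ℕ) (h : Fin d → ℝ) (W : Finset ℕ) (Th : ℕ → (ℕ → V d) → Prop) (j N : ℕ) (κ η1 : ℝ),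
  0 < κ → 0 ≤ η1 → (∀ k ∈ W, MeasurableSet[sig0 X] {ω | Th k (fun n => X 0 n ω)}) →
  (∀ k ∈ W, j + k + 1 ≤ N) → QBP μ X i h W Th j N κ η1 →
  ∫ ω, (lvl W h κ Th j (fun n => X 0 n ω) : ℝ) * ind (VisB (fun n => X i n ω)
    (lvl W h κ Th j (fun n => X 0 n ω)) (X 0 j ω)
    (X 0 (j + (KKs W Th (fun n => X 0 n ω)).sup id + 1) ω)) ∂μ ≤
    η1 * ∫ ω, (lvl W h κ Th j (fun n => X 0 n ω) : ℝ) ∂μ

/-- deterministic: the walk `Y` spends enough time -/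
def S_DET2 : Prop := ∀ (d : ℕ) (S Y : ℕ → V d) (t : ℕ) (J : Finset ℕ) (l b : ℕ → ℕ),
  PathHyp S → Y 0 = 0 → (∀ m, Trace S (Y m) (Y (m + 1))) →
  (∀ j ∈ J, (∀ s < j, S s ≠ S j) ∧ j ≤ b j ∧ IsCut S (b j) ∧
    ((b j : ℕ) : ℝ) < ∑ c, |(Y t c : ℝ)|) →
  ∑ j ∈ J, (l j : ℝ) * ind (¬ VisB Y (l j) (S j) (S (b j + 1))) ≤ t

/-- independence of disjoint blocks of increments (uses LAW) -/
def S_COV : Prop := ∀ (d : ℕ) (Ω : Type) [MeasurableSpace Ω] (μ : Measure Ω)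
  [IsProbabilityMeasure μ] (p : ℕ → D d → ℝ) (X : ℕ → ℕ → Ω → V d), (∀ i e, 0 < p i e) →
  (∀ i, ∑ e, p i e = 1) → IsIterated μ p X →
  ∀ (b c : ℕ) (g h : (ℕ → V d) → ℝ), b ≤ c →
  (∀ S S' : ℕ → V d, (∀ t, t < b → S (t + 1) - S t = S' (t + 1) - S' t) → g S = g S') →
  (∀ S S' : ℕ → V d, (∀ t, b ≤ t → t < c → S (t + 1) - S t = S' (t + 1) - S' t) →
    h S = h S') →
  ∫ ω, g (fun n => X 0 n ω) * h (fun n => X 0 n ω) ∂μ =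
    (∫ ω, g (fun n => X 0 n ω) ∂μ) * ∫ ω, h (fun n => X 0 n ω) ∂μ

/-- weak law of large numbers, lower tail (uses COV REG2) -/
def S_LLN : Prop := ∀ (d : ℕ) (Ω : Type) [MeasurableSpace Ω] (μ : Measure Ω)
  [IsProbabilityMeasure μ] (p : ℕ → D d → ℝ) (X : ℕ → ℕ → Ω → V d), (∀ i e, 0 < p i e) →
  (∀ i, ∑ e, p i e = 1) → IsIterated μ p X →
  ∀ (f : ℕ → (ℕ → V d) → ℝ) (K : ℝ), (∀ j S, PathHyp S → 0 ≤ f j S ∧ f j S ≤ K) →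
  (∀ j, AEStronglyMeasurable (fun ω => f j (fun n => X 0 n ω)) μ) →
  (∀ δ > (0 : ℝ), ∃ (L : ℕ) (g : ℕ → (ℕ → V d) → ℝ), (∀ j, LocDep j L (g j)) ∧
    (∀ j S, PathHyp S → 0 ≤ g j S ∧ g j S ≤ K) ∧
    (∀ j, ∫ ω, |f j (fun n => X 0 n ω) - g j (fun n => X 0 n ω)| ∂μ ≤ δ)) →
  ∀ δ > (0 : ℝ), ∀ η > (0 : ℝ), ∀ᶠ n : ℕ in atTop,
    μ {ω | ∑ j ∈ Finset.range n, f j (fun n => X 0 n ω) <
      (∑ j ∈ Finset.range n, ∫ ω, f j (fun n => X 0 n ω) ∂μ) - δ * n} ≤ ENNReal.ofReal η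

/-- long returns are unlikely (uses LAW LIN) -/
def S_RETB : Prop := ∀ (d : ℕ) (Ω : Type) [MeasurableSpace Ω] (μ : Measure Ω)
  [IsProbabilityMeasure μ] (p : ℕ → D d → ℝ) (X : ℕ → ℕ → Ω → V d), (∀ i e, 0 < p i e) →
  (∀ i, ∑ e, p i e = 1) → IsIterated μ p X →
  ∀ (a : Fin d → ℝ), 0 < ∑ e, p 0 e * fn a e → ∀ (A : ℕ) (δ : ℝ), 0 < δ → ∃ L0 : ℕ,
  ∀ L ≥ L0, ∀ j, μ {ω | ∃ s t, s ≤ j + A ∧ j ≤ t + A ∧ s + L ≤ t + A ∧ X 0 s ω = X 0 t ω} ≤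
    ENNReal.ofReal δ

/-- local approximation of the levels (uses RETB REG2) -/
def S_LOCL : Prop := ∀ (d : ℕ) (Ω : Type) [MeasurableSpace Ω] (μ : Measure Ω)
  [IsProbabilityMeasure μ] (p : ℕ → D d → ℝ) (X : ℕ → ℕ → Ω → V d), (∀ i e, 0 < p i e) →
  (∀ i, ∑ e, p i e = 1) → IsIterated μ p X →
  ∀ (a h : Fin d → ℝ) (W : Finset ℕ) (Th : ℕ → ℕ → (ℕ → V d) → Prop) (κ : ℝ),
  0 < ∑ e, p 0 e * fn a e → 0 < κ →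
  (∀ j, ∀ k ∈ W, MeasurableSet[sig0 X] {ω | Th j k (fun n => X 0 n ω)}) → Loc W Th →
  ∃ K : ℝ, (∀ j S, PathHyp S → 0 ≤ (lvl W h κ (Th j) j S : ℝ) ∧
      (lvl W h κ (Th j) j S : ℝ) ≤ K) ∧
    (∀ j, AEStronglyMeasurable (fun ω => (lvl W h κ (Th j) j (fun n => X 0 n ω) : ℝ)) μ) ∧
    ∀ δ > (0 : ℝ), ∃ (L : ℕ) (g : ℕ → (ℕ → V d) → ℝ), (∀ j, LocDep j L (g j)) ∧
      (∀ j S, PathHyp S → 0 ≤ g j S ∧ g j S ≤ K) ∧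
      (∀ j, ∫ ω, |(lvl W h κ (Th j) j (fun n => X 0 n ω) : ℝ) -
        g j (fun n => X 0 n ω)| ∂μ ≤ δ)

/-- first type: input of the final argument (adapt Helper94/BW/LOW1; uses TYPE1 HOR QB1) -/
def S_PROP1 : Prop := ∀ (d : ℕ) (Ω : Type) [MeasurableSpace Ω] (μ : Measure Ω)
  [IsProbabilityMeasure μ] (p : ℕ → D d → ℝ) (X : ℕ → ℕ → Ω → V d), (∀ i e, 0 < p i e) →
  (∀ i, ∑ e, p i e = 1) → IsIterated μ p X → ∀ (i : ℕ), 1 ≤ i →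
  ∑ e, p 0 e * Real.exp (-(fn (lhat (p i)) e)) = 1 →
  (∃ n : Fin d → ℝ, 0 < ∑ e, p 0 e * fn n e ∧
    0 < ∑ e, p 0 e * Real.exp (-(fn (lhat (p i)) e)) * fn n e) →
  PROP μ X i (lhat (p i))

/-- second type: input of the final argument (adapt Helper6/BW/LOW2; uses TYPE2 HOR QB2 GAP) -/
def S_PROP2 : Prop := ∀ (d : ℕ) (Ω : Type) [MeasurableSpace Ω] (μ : Measure Ω)
  [IsProbabilityMeasure μ] (p : ℕ → D d → ℝ) (X : ℕ → ℕ → Ω → V d), (∀ i e, 0 < p i e) →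
  (∀ i, ∑ e, p i e = 1) → IsIterated μ p X → ∀ (i : ℕ), 1 ≤ i →
  (∀ m, 1 ≤ m → m ≤ i → 0 < ∑ e, p 0 e * fn (lhat (p m)) e) →
  ∑ e, p 0 e * Real.exp (-(fn (lhat (p i)) e)) = 1 →
  (∃ (n u : Fin d → ℝ) (g gB : ℝ), 0 < g ∧ 0 < gB ∧ ∑ j, u j ^ 2 = 1 ∧ ∑ j, n j ^ 2 = 1 ∧
    ∑ j, n j * u j = 0 ∧ (∀ j, drift (p 0) j = g * u j) ∧
    (∀ j, drift (fun e => p 0 e * Real.exp (-(fn (lhat (p i)) e))) j = -gB * u j)) →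
  PROP μ X i (lhat (p i))

/-- the final argument (uses BADSUM LLN LOCL DET2 REG2) -/
def S_FIN2 : Prop := ∀ (d : ℕ) (Ω : Type) [MeasurableSpace Ω] (μ : Measure Ω)
  [IsProbabilityMeasure μ] (p : ℕ → D d → ℝ) (X : ℕ → ℕ → Ω → V d), (∀ i e, 0 < p i e) →
  (∀ i, ∑ e, p i e = 1) → IsIterated μ p X → ∀ (i : ℕ) (a h : Fin d → ℝ),
  0 < ∑ e, p 0 e * fn a e → PROP μ X i h →
  ∀ ε > (0 : ℝ), Tendsto (fun t : ℕ => μ {ω | ε * t ≤ ∑ c, |(X i t ω c : ℝ)|}) atTop (𝓝 0)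

end Pool.Agent.Helper51.BW
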