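import Pool.Agent.Helper51.BW.Spec

/-!
# Elementary lemmas on `Ex`, `Pr`, `wk`, `pos`
-/

open MeasureTheory Filter Topology

namespace Pool.Agent.Helper51.BW

section Ex

variable {α : Type} [Fintype α] (p : α → ℝ)

@[simp] lemma ind_true {Q : Prop} (h : Q) : ind Q = 1 := by simp [ind, h]
@[simp] lemma ind_false {Q : Prop} (h : ¬ Q) : ind Q = 0 := by simp [ind, h]
lemma ind_nonneg (Q : Prop) : 0 ≤ ind Q := by unfold ind; split_ifs <;> norm_num
lemma ind_le_one (Q : Prop) : ind Q ≤ 1 := by unfold ind; split_ifs <;> norm_num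
lemma ind_mono {Q Q' : Prop} (h : Q → Q') : ind Q ≤ ind Q' := by
  by_cases hq : Q
  · rw [ind_true hq, ind_true (h hq)]
  · rw [ind_false hq]; exact ind_nonneg _
lemma ind_congr {Q Q' : Prop} (h : Q ↔ Q') : ind Q = ind Q' := by rw [propext h]
lemma ind_or_le (Q Q' : Prop) : ind (Q ∨ Q') ≤ ind Q + ind Q' := by
  by_cases hq : Q
  · rw [ind_true (Or.inl hq), ind_true hq]; linarith [ind_nonneg Q']
  · by_cases hq' : Q'
    · rw [ind_true (Or.inr hq'), ind_true hq']; linarith [ind_nonneg Q]
    · rw [ind_false (by tauto)]; linarith [ind_nonneg Q, ind_nonneg Q']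
lemma ind_and (Q Q' : Prop) : ind (Q ∧ Q') = ind Q * ind Q' := by
  by_cases hq : Q <;> by_cases hq' : Q' <;> simp [ind, hq, hq']
lemma ind_not (Q : Prop) : ind (¬ Q) = 1 - ind Q := by
  by_cases hq : Q <;> simp [ind, hq]

@[simp] lemma Ex_zero (F : List α → ℝ) : Ex p 0 F = F [] := rfl
lemma Ex_succ (n : ℕ) (F : List α → ℝ) :
    Ex p (n + 1) F = ∑ e, p e * Ex p n (fun l => F (e :: l)) := rfl

/-- only lists of length `n` matter -/
lemma Ex_congr (n : ℕ) : ∀ {F G : List α → ℝ}, (∀ l, l.length = n → F l = G l) →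
    Ex p n F = Ex p n G := by
  induction n with
  | zero => intro F G h; exact h [] rfl
  | succ n ih =>
    intro F G h
    rw [Ex_succ, Ex_succ]
    refine Finset.sum_congr rfl fun e _ => ?_
    rw [ih (F := fun l => F (e :: l)) (G := fun l => G (e :: l))
      (fun l hl => h _ (by simp [hl]))]

lemma Ex_mono (hp : ∀ e, 0 ≤ p e) (n : ℕ) : ∀ {F G : List α → ℝ},
    (∀ l, l.length = n → F l ≤ G l) → Ex p n F ≤ Ex p n G := by
  induction n with
  | zero => intro F G h; exact h [] rfl
  | succ n ih =>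
    intro F G h
    rw [Ex_succ, Ex_succ]
    refine Finset.sum_le_sum fun e _ => mul_le_mul_of_nonneg_left ?_ (hp e)
    exact ih (fun l hl => h _ (by simp [hl]))

lemma Ex_add (n : ℕ) : ∀ (F G : List α → ℝ),
    Ex p n (fun l => F l + G l) = Ex p n F + Ex p n G := by
  induction n with
  | zero => intro F G; rfl
  | succ n ih =>
    intro F G
    rw [Ex_succ, Ex_succ, Ex_succ, ← Finset.sum_add_distrib]
    refine Finset.sum_congr rfl fun e _ => ?_
    rw [ih]; ring

lemma Ex_mul_left (n : ℕ) (c : ℝ) : ∀ (F : List α → ℝ),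
    Ex p n (fun l => c * F l) = c * Ex p n F := by
  induction n with
  | zero => intro F; rfl
  | succ n ih =>
    intro F
    rw [Ex_succ, Ex_succ, Finset.mul_sum]
    refine Finset.sum_congr rfl fun e _ => ?_
    rw [ih]; ring

lemma Ex_mul_right (n : ℕ) (c : ℝ) (F : List α → ℝ) :
    Ex p n (fun l => F l * c) = Ex p n F * c := by
  rw [mul_comm, ← Ex_mul_left]
  exact Ex_congr p n fun l _ => mul_comm _ _

lemma Ex_sub (n : ℕ) (F G : List α → ℝ) :
    Ex p n (fun l => F l - G l) = Ex p n F - Ex p n G := by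
  have h1 := Ex_add p n F (fun l => (-1) * G l)
  rw [Ex_mul_left] at h1
  calc Ex p n (fun l => F l - G l) = Ex p n (fun l => F l + (-1) * G l) :=
        Ex_congr p n fun l _ => by ring
    _ = _ := by rw [h1]; ring

lemma Ex_finset_sum {ι : Type} (s : Finset ι) (n : ℕ) (F : ι → List α → ℝ) :
    Ex p n (fun l => ∑ i ∈ s, F i l) = ∑ i ∈ s, Ex p n (F i) := by
  classical
  induction s using Finset.induction_on with
  | empty =>
    simp only [Finset.sum_empty]
    have := Ex_mul_left p n 0 (fun _ => 0)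
    simpa using this
  | insert a s ha ih =>
    rw [Finset.sum_insert ha, ← ih, ← Ex_add]
    exact Ex_congr p n fun l _ => Finset.sum_insert ha

lemma Ex_const (hp1 : ∑ e, p e = 1) (n : ℕ) (c : ℝ) : Ex p n (fun _ => c) = c := by
  induction n with
  | zero => rfl
  | succ n ih => rw [Ex_succ]; simp only [ih]; rw [← Finset.sum_mul, hp1, one_mul]

lemma Ex_nonneg (hp : ∀ e, 0 ≤ p e) (n : ℕ) {F : List α → ℝ}
    (h : ∀ l, l.length = n → 0 ≤ F l) : 0 ≤ Ex p n F := by
  have h0 : Ex p n (fun _ => (0 : ℝ)) = 0 := by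
    have := Ex_mul_left p n 0 (fun _ => 0)
    simpa using this
  rw [← h0]
  exact Ex_mono p hp n h

lemma Ex_append (m n : ℕ) : ∀ (F : List α → ℝ),
    Ex p (m + n) F = Ex p m (fun l1 => Ex p n (fun l2 => F (l1 ++ l2))) := by
  induction m with
  | zero => intro F; simp
  | succ m ih =>
    intro F
    rw [Nat.succ_add, Ex_succ, Ex_succ]
    refine Finset.sum_congr rfl fun e _ => ?_
    rw [ih]
    rfl

lemma Ex_snoc (n : ℕ) (F : List α → ℝ) :
    Ex p (n + 1) F = ∑ e, p e * Ex p n (fun l => F (l ++ [e])) := by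
  rw [Ex_append]
  simp only [Ex_succ, Ex_zero]
  rw [Ex_finset_sum]
  refine Finset.sum_congr rfl fun e _ => ?_
  rw [← Ex_mul_left]

lemma Ex_reverse (n : ℕ) : ∀ (F : List α → ℝ), Ex p n (fun l => F l.reverse) = Ex p n F := by
  induction n with
  | zero => intro F; rfl
  | succ n ih =>
    intro F
    rw [Ex_succ, Ex_snoc]
    refine Finset.sum_congr rfl fun e _ => ?_
    rw [← ih (fun l => F (l ++ [e]))]
    simp

/-- change of the law by an exponential weight -/
lemma Ex_tilt (h : α → ℝ) (n : ℕ) : ∀ (F : List α → ℝ),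
    Ex (fun e => p e * Real.exp (h e)) n F =
      Ex p n (fun l => Real.exp ((l.map h).sum) * F l) := by
  induction n with
  | zero => intro F; simp
  | succ n ih =>
    intro F
    rw [Ex_succ, Ex_succ]
    refine Finset.sum_congr rfl fun e _ => ?_
    rw [ih, mul_assoc, ← Ex_mul_left]
    congr 1
    refine Ex_congr p n fun l _ => ?_
    rw [List.map_cons, List.sum_cons, Real.exp_add]
    ring

/-- restrict to one first letter -/
lemma Ex_cons_le (hp : ∀ e, 0 ≤ p e) (n : ℕ) {F : List α → ℝ}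
    (h : ∀ l, l.length = n + 1 → 0 ≤ F l) (e : α) :
    p e * Ex p n (fun l => F (e :: l)) ≤ Ex p (n + 1) F := by
  rw [Ex_succ]
  exact Finset.single_le_sum
    (f := fun e => p e * Ex p n (fun l => F (e :: l)))
    (fun e' _ => mul_nonneg (hp e') (Ex_nonneg p hp n fun l hl => h _ (by simp [hl])))
    (Finset.mem_univ e)

/-- restrict to `m` equal first letters -/
lemma Ex_replicate_le (hp : ∀ e, 0 ≤ p e) (m n : ℕ) (e : α) : ∀ {F : List α → ℝ},
    (∀ l, l.length = m + n → 0 ≤ F l) →
    p e ^ m * Ex p n (fun l => F (List.replicate m e ++ l)) ≤ Ex p (m + n) F := by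
  induction m with
  | zero => intro F _; simp
  | succ m ih =>
    intro F h
    have h1 := ih (F := fun l => F (e :: l)) (fun l hl => h _ (by simp [hl]; omega))
    have h2 : p e * Ex p (m + n) (fun l => F (e :: l)) ≤ Ex p (m + n + 1) F :=
      Ex_cons_le p hp (m + n) (fun l hl => h l (by rw [hl]; omega)) e
    have h3 : m + 1 + n = m + n + 1 := by omega
    rw [h3]
    refine le_trans ?_ h2
    rw [pow_succ, mul_comm (p e ^ m) (p e), mul_assoc]
    exact mul_le_mul_of_nonneg_left h1 (hp e)

/-- restrict to `m` equal last letters -/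
lemma Ex_replicate_right_le (hp : ∀ e, 0 ≤ p e) (m n : ℕ) (e : α) {F : List α → ℝ}
    (h : ∀ l, l.length = n + m → 0 ≤ F l) :
    p e ^ m * Ex p n (fun l => F (l ++ List.replicate m e)) ≤ Ex p (n + m) F := by
  rw [Ex_append, ← Ex_mul_left]
  refine Ex_mono p hp n fun l hl => ?_
  have := Ex_replicate_le p hp m 0 e (F := fun l2 => F (l ++ l2))
    (fun l2 hl2 => h _ (by simp at hl2; simp [hl, hl2]))
  simpa using this

lemma Pr_mono (hp : ∀ e, 0 ≤ p e) (n : ℕ) {Q Q' : List α → Prop}
    (h : ∀ l, l.length = n → Q l → Q' l) : Pr p n Q ≤ Pr p n Q' :=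
  Ex_mono p hp n fun l hl => ind_mono (h l hl)

lemma Pr_congr (n : ℕ) {Q Q' : List α → Prop}
    (h : ∀ l, l.length = n → (Q l ↔ Q' l)) : Pr p n Q = Pr p n Q' :=
  Ex_congr p n fun l hl => ind_congr (h l hl)

lemma Pr_nonneg (hp : ∀ e, 0 ≤ p e) (n : ℕ) (Q : List α → Prop) : 0 ≤ Pr p n Q :=
  Ex_nonneg p hp n fun _ _ => ind_nonneg _

lemma Pr_le_one (hp : ∀ e, 0 ≤ p e) (hp1 : ∑ e, p e = 1) (n : ℕ) (Q : List α → Prop) :
    Pr p n Q ≤ 1 := by
  rw [← Ex_const p hp1 n 1]
  exact Ex_mono p hp n fun _ _ => ind_le_one _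

lemma Pr_or_le (hp : ∀ e, 0 ≤ p e) (n : ℕ) (Q Q' : List α → Prop) :
    Pr p n (fun l => Q l ∨ Q' l) ≤ Pr p n Q + Pr p n Q' := by
  unfold Pr
  rw [← Ex_add]
  exact Ex_mono p hp n fun _ _ => ind_or_le _ _

lemma Pr_not (hp1 : ∑ e, p e = 1) (n : ℕ) (Q : List α → Prop) :
    Pr p n (fun l => ¬ Q l) = 1 - Pr p n Q := by
  have h := Ex_sub p n (fun _ => (1 : ℝ)) (fun l => ind (Q l))
  rw [Ex_const p hp1] at h
  unfold Pr
  rw [← h]
  exact Ex_congr p n fun l _ => ind_not _

/-- `P(Q) ≤ P(Q ∧ Q') + P(¬ Q')` -/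
lemma Pr_le_and_add_not (hp : ∀ e, 0 ≤ p e) (n : ℕ) (Q Q' : List α → Prop) :
    Pr p n Q ≤ Pr p n (fun l => Q l ∧ Q' l) + Pr p n (fun l => ¬ Q' l) := by
  refine le_trans ?_ (Pr_or_le p hp n _ _)
  exact Pr_mono p hp n fun l _ h => by tauto

/-- union bound over a finite type -/
lemma Pr_exists_le {ι : Type} [Fintype ι] (hp : ∀ e, 0 ≤ p e) (n : ℕ)
    (Q : ι → List α → Prop) :
    Pr p n (fun l => ∃ i, Q i l) ≤ ∑ i, Pr p n (Q i) := by
  unfold Pr
  rw [← Ex_finset_sum]
  refine Ex_mono p hp n fun l _ => ?_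
  by_cases h : ∃ i, Q i l
  · obtain ⟨i, hi⟩ := h
    rw [ind_true ⟨i, hi⟩, ← ind_true hi]
    exact Finset.single_le_sum (f := fun i => ind (Q i l)) (fun _ _ => ind_nonneg _)
      (Finset.mem_univ i)
  · rw [ind_false h]
    exact Finset.sum_nonneg fun _ _ => ind_nonneg _

/-- an event which depends on the first `m` letters only -/
lemma Pr_prefix (hp1 : ∑ e, p e = 1) (m n : ℕ) (Q : List α → Prop)
    (h : ∀ l1 l2, l1.length = m → l2.length = n → (Q (l1 ++ l2) ↔ Q l1)) :
    Pr p (m + n) Q = Pr p m Q := by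
  unfold Pr
  rw [Ex_append]
  refine Ex_congr p m fun l1 hl1 => ?_
  rw [← Ex_const p hp1 n (ind (Q l1))]
  exact Ex_congr p n fun l2 hl2 => ind_congr (h l1 l2 hl1 hl2)

/-- an event which depends on the last `n` letters only -/
lemma Pr_suffix (hp1 : ∑ e, p e = 1) (m n : ℕ) (Q Q' : List α → Prop)
    (h : ∀ l1 l2, l1.length = m → l2.length = n → (Q (l1 ++ l2) ↔ Q' l2)) :
    Pr p (m + n) Q = Pr p n Q' := by
  unfold Pr
  rw [Ex_append]
  rw [← Ex_const p hp1 m (Ex p n (fun l => ind (Q' l)))]
  refine Ex_congr p m fun l1 hl1 => ?_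
  exact Ex_congr p n fun l2 hl2 => ind_congr (h l1 l2 hl1 hl2)

lemma Pr_reverse (n : ℕ) (Q : List α → Prop) :
    Pr p n (fun l => Q l.reverse) = Pr p n Q :=
  Ex_reverse p n (fun l => ind (Q l))

/-- product events -/
lemma Pr_mul (m n : ℕ) (Q Q' : List α → Prop) :
    Ex p m (fun l1 => Ex p n (fun l2 => ind (Q l1) * ind (Q' l2))) = Pr p m Q * Pr p n Q' := by
  unfold Pr
  rw [← Ex_mul_right]
  refine Ex_congr p m fun l1 _ => ?_
  rw [Ex_mul_left]

end Ex

section wk

variable {α : Type} (f : α → ℝ)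

@[simp] lemma wk_zero (l : List α) : wk f l 0 = 0 := by simp [wk]
@[simp] lemma wk_nil (t : ℕ) : wk f [] t = 0 := by simp [wk]
lemma wk_cons_succ (e : α) (l : List α) (t : ℕ) : wk f (e :: l) (t + 1) = f e + wk f l t := by
  simp [wk]
lemma wk_append_le (l1 l2 : List α) (t : ℕ) (h : t ≤ l1.length) :
    wk f (l1 ++ l2) t = wk f l1 t := by
  unfold wk; rw [List.take_append_of_le_length h]
lemma wk_length (l : List α) : wk f l l.length = (l.map f).sum := by simp [wk]
lemma wk_ge_length (l : List α) (t : ℕ) (h : l.length ≤ t) : wk f l t = (l.map f).sum := by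
  simp [wk, List.take_of_length_le h]
lemma wk_append_add (l1 l2 : List α) (t : ℕ) :
    wk f (l1 ++ l2) (l1.length + t) = (l1.map f).sum + wk f l2 t := by
  unfold wk; rw [List.take_length_add_append]; simp
lemma wk_append_ge (l1 l2 : List α) (t : ℕ) (h : l1.length ≤ t) :
    wk f (l1 ++ l2) t = (l1.map f).sum + wk f l2 (t - l1.length) := by
  obtain ⟨s, rfl⟩ := Nat.exists_eq_add_of_le h
  rw [wk_append_add, Nat.add_sub_cancel_left]
lemma wk_replicate (e : α) (m t : ℕ) (h : t ≤ m) : wk f (List.replicate m e) t = t * f e := by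
  unfold wk; rw [List.take_replicate]; simp [h]
lemma sum_map_replicate (e : α) (m : ℕ) : ((List.replicate m e).map f).sum = m * f e := by simp
/-- reversal: `wk f l.reverse t = wk f l n - wk f l (n - t)` for `t ≤ n = l.length` -/
lemma wk_reverse (l : List α) (t : ℕ) (h : t ≤ l.length) :
    wk f l.reverse t = wk f l l.length - wk f l (l.length - t) := by
  have h1 : l.take (l.length - t) ++ l.drop (l.length - t) = l := List.take_append_drop _ _
  have h2 : l.reverse.take t = (l.drop (l.length - t)).reverse := by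
    rw [List.take_reverse]
  have h3 : (l.map f).sum = ((l.take (l.length - t)).map f).sum +
      ((l.drop (l.length - t)).map f).sum := by
    conv_lhs => rw [← h1]
    rw [List.map_append, List.sum_append]
  unfold wk
  rw [h2, List.take_length, List.map_reverse, List.sum_reverse, h3]
  ring

lemma wk_sub (f g : α → ℝ) (l : List α) (t : ℕ) :
    wk (fun e => f e - g e) l t = wk f l t - wk g l t := by
  unfold wk; induction (l.take t) with
  | nil => simp
  | cons a l ih => simp only [List.map_cons, List.sum_cons, ih]; ring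
lemma wk_add (f g : α → ℝ) (l : List α) (t : ℕ) :
    wk (fun e => f e + g e) l t = wk f l t + wk g l t := by
  unfold wk; induction (l.take t) with
  | nil => simp
  | cons a l ih => simp only [List.map_cons, List.sum_cons, ih]; ring
lemma wk_const (c : ℝ) (l : List α) (t : ℕ) (h : t ≤ l.length) :
    wk (fun _ => c) l t = t * c := by
  unfold wk; simp [h]
lemma wk_mul (c : ℝ) (f : α → ℝ) (l : List α) (t : ℕ) :
    wk (fun e => c * f e) l t = c * wk f l t := by
  unfold wk; induction (l.take t) with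
  | nil => simp
  | cons a l ih => simp only [List.map_cons, List.sum_cons, ih]; ring
lemma wk_neg (f : α → ℝ) (l : List α) (t : ℕ) :
    wk (fun e => - f e) l t = - wk f l t := by
  unfold wk; induction (l.take t) with
  | nil => simp
  | cons a l ih => simp only [List.map_cons, List.sum_cons, ih]; ring

end wk

section pos

variable {d : ℕ}

lemma ip_add (a : Fin d → ℝ) (z z' : V d) : ip a (z + z') = ip a z + ip a z' := by
  simp [ip, mul_add, Finset.sum_add_distrib]
lemma ip_sub (a : Fin d → ℝ) (z z' : V d) : ip a (z - z') = ip a z - ip a z' := by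
  simp [ip, mul_sub, Finset.sum_sub_distrib]
@[simp] lemma ip_zero (a : Fin d → ℝ) : ip a (0 : V d) = 0 := by simp [ip]
lemma ip_neg (a : Fin d → ℝ) (z : V d) : ip a (-z) = - ip a z := by
  simp [ip, Finset.sum_neg_distrib]

@[simp] lemma pos_zero (l : List (D d)) : pos l 0 = 0 := by simp [pos]
lemma pos_cons_succ (e : D d) (l : List (D d)) (t : ℕ) :
    pos (e :: l) (t + 1) = dir e + pos l t := by simp [pos]
lemma pos_append_le (l1 l2 : List (D d)) (t : ℕ) (h : t ≤ l1.length) :
    pos (l1 ++ l2) t = pos l1 t := by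
  unfold pos; rw [List.take_append_of_le_length h]
lemma pos_append_add (l1 l2 : List (D d)) (t : ℕ) :
    pos (l1 ++ l2) (l1.length + t) = pos l1 l1.length + pos l2 t := by
  unfold pos; rw [List.take_length_add_append]; simp
lemma pos_reverse (l : List (D d)) (t : ℕ) (h : t ≤ l.length) :
    pos l.reverse (l.length - t) = pos l.reverse l.length - pos l t := by
  have h1 : l.take t ++ l.drop t = l := List.take_append_drop _ _
  have h2 : l.reverse.take (l.length - t) = (l.drop t).reverse := by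
    rw [List.take_reverse]; congr 2; omega
  have h3 : l.reverse.take l.length = l.reverse := by
    rw [List.take_of_length_le]; simp
  unfold pos
  rw [h2, h3]
  have h4 : (l.map dir).sum = ((l.take t).map dir).sum + ((l.drop t).map dir).sum := by
    conv_lhs => rw [← h1]
    simp
  simp only [List.map_reverse, List.sum_reverse]
  rw [h4]; abel
lemma pos_succ (l : List (D d)) (t : ℕ) (h : t < l.length) :
    pos l (t + 1) = pos l t + dir (l[t]) := by
  unfold pos
  rw [← List.take_concat_get' l t h, List.map_append, List.sum_append]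
  simp

/-- `wk (fn a) l t = ip a (pos l t)` -/
lemma wk_fn (a : Fin d → ℝ) (l : List (D d)) (t : ℕ) : wk (fn a) l t = ip a (pos l t) := by
  unfold wk pos
  induction (l.take t) with
  | nil => simp
  | cons e l ih => simp only [List.map_cons, List.sum_cons, ih, ip_add]; rfl

/-- the three strands -/
lemma rel3 (lA lB lC : List (D d)) :
    Rel3 (pos (lA.reverse ++ lB.reverse ++ lC)) lA.length lB.length lC.length lA lB lC := by
  have hj : pos (lA.reverse ++ lB.reverse ++ lC) lA.length = pos lA.reverse lA.length := by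
    rw [List.append_assoc, pos_append_le _ _ _ (by simp)]
  have hjk : ∀ t ≤ lB.length, pos (lA.reverse ++ lB.reverse ++ lC) (lA.length + t) =
      pos lA.reverse lA.length + pos lB.reverse t := by
    intro t ht
    rw [pos_append_le _ _ _ (by simp; omega)]
    have := pos_append_add lA.reverse lB.reverse t
    simpa using this
  refine ⟨fun t ht => ?_, fun t ht => ?_, fun t ht => ?_⟩
  · rw [hj, ← pos_reverse lA t ht, List.append_assoc, pos_append_le _ _ _ (by simp)]
  · have h1 : lA.length + lB.length - t = lA.length + (lB.length - t) := by omega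
    rw [h1, hjk _ (by omega), hjk _ le_rfl, pos_reverse lB t ht]
    abel
  · have h1 : (lA.reverse ++ lB.reverse).length = lA.length + lB.length := by simp
    have h2 := pos_append_add (lA.reverse ++ lB.reverse) lC t
    rw [h1] at h2
    rw [h2]
    congr 1
    exact (pos_append_le (lA.reverse ++ lB.reverse) lC _ (by rw [h1])).symm

end pos

end Pool.Agent.Helper51.BW
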