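import Pool.Agent.Helper51.BW.Base

open MeasureTheory Filter Topology

namespace Pool.Agent.Helper51.BW.EA

section det
variable {α : Type} (e : α) (m0 : ℕ) (l1 l2 : List α)

/-- the list with inserted blocks -/
def LL : List α := List.replicate m0 e ++ (l1 ++ (List.replicate (2 * m0) e ++ l2))

lemma LL1 (f : α → ℝ) (t : ℕ) (h : t ≤ m0) : wk f (LL e m0 l1 l2) t = t * f e := by
  unfold LL
  rw [wk_append_le _ _ _ _ (by simpa using h), wk_replicate _ _ _ _ h]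

lemma LL2 (f : α → ℝ) (s : ℕ) (h : s ≤ l1.length) :
    wk f (LL e m0 l1 l2) (m0 + s) = m0 * f e + wk f (l1 ++ l2) s := by
  unfold LL
  have h1 := wk_append_add f (List.replicate m0 e)
    (l1 ++ (List.replicate (2 * m0) e ++ l2)) s
  rw [List.length_replicate, sum_map_replicate] at h1
  rw [h1, wk_append_le _ _ _ _ h, wk_append_le _ _ _ _ h]

lemma LL3 (f : α → ℝ) (c : ℕ) (h : c ≤ 2 * m0) :
    wk f (LL e m0 l1 l2) (m0 + (l1.length + c)) =
      (m0 + c) * f e + wk f (l1 ++ l2) l1.length := by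
  unfold LL
  have h1 := wk_append_add f (List.replicate m0 e)
    (l1 ++ (List.replicate (2 * m0) e ++ l2)) (l1.length + c)
  rw [List.length_replicate, sum_map_replicate] at h1
  have h2 := wk_append_add f l1 (List.replicate (2 * m0) e ++ l2) c
  have h3 : wk f (List.replicate (2 * m0) e ++ l2) c = c * f e := by
    rw [wk_append_le _ _ _ _ (by simpa using h), wk_replicate _ _ _ _ h]
  rw [h1, h2, h3, wk_append_le _ _ _ _ le_rfl, wk_length]
  ring

lemma LL4 (f : α → ℝ) (s : ℕ) :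
    wk f (LL e m0 l1 l2) (3 * m0 + (l1.length + s)) =
      (3 * m0) * f e + wk f (l1 ++ l2) (l1.length + s) := by
  unfold LL
  have h1 := wk_append_add f (List.replicate m0 e)
    (l1 ++ (List.replicate (2 * m0) e ++ l2)) (l1.length + (2 * m0 + s))
  rw [List.length_replicate, sum_map_replicate] at h1
  have h2 := wk_append_add f l1 (List.replicate (2 * m0) e ++ l2) (2 * m0 + s)
  have h3 := wk_append_add f (List.replicate (2 * m0) e) l2 s
  rw [List.length_replicate, sum_map_replicate] at h3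
  have h4 := wk_append_add f l1 l2 s
  have h5 : 3 * m0 + (l1.length + s) = m0 + (l1.length + (2 * m0 + s)) := by ring
  rw [h5, h1, h2, h3, h4]
  push_cast
  ring

/-- trichotomy of times -/
lemma cases_time (n1 m0 t : ℕ) : t ≤ m0 ∨ (∃ s ≤ n1, t = m0 + s) ∨
    (∃ c ≤ 2 * m0, t = m0 + (n1 + c)) ∨ (∃ s, 1 ≤ s ∧ t = 3 * m0 + (n1 + s)) := by
  by_cases h1 : t ≤ m0
  · exact Or.inl h1
  · by_cases h2 : t ≤ m0 + n1
    · exact Or.inr (Or.inl ⟨t - m0, by omega, by omega⟩)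
    · by_cases h3 : t ≤ 3 * m0 + n1
      · exact Or.inr (Or.inr (Or.inl ⟨t - m0 - n1, by omega, by omega⟩))
      · exact Or.inr (Or.inr (Or.inr ⟨t - 3 * m0 - n1, by omega, by omega⟩))

end det

/-- good event for `W = l1 ++ l2` in terms of the walk -/
def G {d : ℕ} (n u : Fin d → ℝ) (g w : ℝ) (r m0 n1 n2 T1 : ℕ) (W : List (D d)) : Prop :=
  (∀ s ≤ T1 - 3 * m0, 0 < (r : ℝ) ^ 10 / 4 + wk (fn n) W s) ∧
  (∀ i, ∀ s ≤ T1 - 3 * m0, |wk (fn (perp u i)) W s| < (r : ℝ) ^ 12 / 2) ∧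
  (∀ s ≤ T1 - 3 * m0, |wk (fun e => fn u e - g) W s| < (r : ℝ) ^ 12 / 2) ∧
  (∀ s ≤ n1 + n2, -((r : ℝ) ^ 12 / 2) < wk (fun e => fn u e - g / 2) W s) ∧
  (∀ s ≤ n1, -(m0 * w) < wk (fn u) W s) ∧
  (∀ s ≤ n1, -(m0 * w) < wk (fn u) W n1 - wk (fn u) W (n1 - s)) ∧
  (∀ s ≤ n2, -(m0 * w) < wk (fn u) W (n1 + s) - wk (fn u) W n1)

lemma det {d : ℕ} (n u : Fin d → ℝ) (g : ℝ) (e : D d) (r m0 n1 n2 T1 : ℕ)
    (hg : 0 < g) (hg1 : g ≤ 1) (hn : ∀ e, |fn n e| ≤ 1) (hu : ∀ e, |fn u e| ≤ 1)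
    (hpp : ∀ i e, |fn (perp u i) e| ≤ 2) (hw : 0 < fn u e) (hm0 : 1 ≤ m0) (hr : 12 * m0 ≤ r)
    (hT1 : n1 + 3 * m0 ≤ T1) (hT1' : T1 ≤ n1 + 3 * m0 + n2)
    (l1 l2 : List (D d)) (h1 : l1.length = n1) (h2 : l2.length = n2)
    (hG : G n u g (fn u e) r m0 n1 n2 T1 (l1 ++ l2)) :
    EvA n u g r (n1 + 2 * m0) T1 (n1 + 3 * m0 + n2) (LL e m0 l1 l2) := by
  obtain ⟨G1, G2, G3, G4, G5, G6, G7⟩ := hG
  subst h1 h2
  have hr1 : (1 : ℝ) ≤ r := by
    have : 1 ≤ r := by omega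
    exact_mod_cast this
  have hr12 : (12 : ℝ) * m0 ≤ r := by exact_mod_cast hr
  have hp10 : (r : ℝ) ≤ (r : ℝ) ^ 10 := le_self_pow₀ hr1 (by norm_num)
  have hp12 : (r : ℝ) ≤ (r : ℝ) ^ 12 := le_self_pow₀ hr1 (by norm_num)
  have hm0' : (1 : ℝ) ≤ m0 := by exact_mod_cast hm0
  -- representation of each time
  have rep : ∀ t ≤ T1, ∃ c s : ℕ, c + s = t ∧ c ≤ 3 * m0 ∧ s ≤ T1 - 3 * m0 ∧
      ∀ f : D d → ℝ, wk f (LL e m0 l1 l2) t = c * f e + wk f (l1 ++ l2) s := by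
    intro t ht
    rcases cases_time l1.length m0 t with h | ⟨s, hs, rfl⟩ | ⟨c, hc, rfl⟩ | ⟨s, hs, rfl⟩
    · refine ⟨t, 0, by omega, by omega, by omega, fun f => ?_⟩
      rw [LL1 _ _ _ _ _ _ h, wk_zero]; ring
    · refine ⟨m0, s, by omega, by omega, by omega, fun f => ?_⟩
      rw [LL2 _ _ _ _ _ _ hs]
    · refine ⟨m0 + c, l1.length, by omega, by omega, by omega, fun f => ?_⟩
      rw [LL3 _ _ _ _ _ _ hc]; push_cast; ring
    · refine ⟨3 * m0, l1.length + s, by omega, by omega, by omega, fun f => ?_⟩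
      rw [LL4]; push_cast; ring
  have rep' : ∀ t ≤ l1.length + 3 * m0 + l2.length, ∃ c s : ℕ, c + s = t ∧ c ≤ 3 * m0 ∧
      s ≤ l1.length + l2.length ∧
      ∀ f : D d → ℝ, wk f (LL e m0 l1 l2) t = c * f e + wk f (l1 ++ l2) s := by
    intro t ht
    rcases cases_time l1.length m0 t with h | ⟨s, hs, rfl⟩ | ⟨c, hc, rfl⟩ | ⟨s, hs, rfl⟩
    · refine ⟨t, 0, by omega, by omega, by omega, fun f => ?_⟩
      rw [LL1 _ _ _ _ _ _ h, wk_zero]; ring
    · refine ⟨m0, s, by omega, by omega, by omega, fun f => ?_⟩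
      rw [LL2 _ _ _ _ _ _ hs]
    · refine ⟨m0 + c, l1.length, by omega, by omega, by omega, fun f => ?_⟩
      rw [LL3 _ _ _ _ _ _ hc]; push_cast; ring
    · refine ⟨3 * m0, l1.length + s, by omega, by omega, by omega, fun f => ?_⟩
      rw [LL4]; push_cast; ring
  -- value at t0
  have ht0 : wk (fn u) (LL e m0 l1 l2) (l1.length + 2 * m0) =
      2 * m0 * fn u e + wk (fn u) (l1 ++ l2) l1.length := by
    have : l1.length + 2 * m0 = m0 + (l1.length + m0) := by ring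
    rw [this, LL3 _ _ _ _ _ _ (by omega)]; ring
  have G5n := G5 l1.length le_rfl
  refine ⟨?_, ?_, ?_, ?_, ?_, ?_, ?_⟩
  · intro t ht
    obtain ⟨c, s, hcs, hc, hs, hf⟩ := rep t ht
    rw [hf]
    have a1 := G1 s hs
    have a2 := abs_le.1 (hn e)
    have a3 : (c : ℝ) ≤ 3 * m0 := by exact_mod_cast hc
    have a4 : (0 : ℝ) ≤ c := Nat.cast_nonneg _
    have a5 : -(c : ℝ) ≤ c * fn n e := by nlinarith [a2.1]
    linarith
  · intro i t ht
    obtain ⟨c, s, hcs, hc, hs, hf⟩ := rep t ht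
    rw [hf]
    have a1 := G2 i s hs
    have a2 := hpp i e
    have a3 : (c : ℝ) ≤ 3 * m0 := by exact_mod_cast hc
    have a4 : (0 : ℝ) ≤ c := Nat.cast_nonneg _
    have a5 : |(c : ℝ) * fn (perp u i) e| ≤ 3 * m0 * 2 := by
      rw [abs_mul, abs_of_nonneg a4]
      exact mul_le_mul a3 a2 (abs_nonneg _) (by positivity)
    have := abs_add_le ((c : ℝ) * fn (perp u i) e) (wk (fn (perp u i)) (l1 ++ l2) s)
    linarith
  · intro t ht
    obtain ⟨c, s, hcs, hc, hs, hf⟩ := rep t ht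
    have hlen : s ≤ (l1 ++ l2).length := by
      rw [List.length_append]; omega
    have a1 := G3 s hs
    rw [wk_sub (fn u) (fun _ => g), wk_const g _ _ hlen] at a1
    rw [hf]
    have a2 := hu e
    have a3 : (c : ℝ) ≤ 3 * m0 := by exact_mod_cast hc
    have a4 : (0 : ℝ) ≤ c := Nat.cast_nonneg _
    have ht' : (t : ℝ) = c + s := by rw [← hcs]; push_cast; ring
    have a6 : c * fn u e + wk (fn u) (l1 ++ l2) s - g * t =
        c * (fn u e - g) + (wk (fn u) (l1 ++ l2) s - s * g) := by rw [ht']; ring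
    rw [a6]
    have a7 : |fn u e - g| ≤ 2 := by
      have := abs_sub (fn u e) g
      rw [abs_of_pos hg] at this
      linarith
    have a5 : |(c : ℝ) * (fn u e - g)| ≤ 3 * m0 * 2 := by
      rw [abs_mul, abs_of_nonneg a4]
      exact mul_le_mul a3 a7 (abs_nonneg _) (by positivity)
    have := abs_add_le ((c : ℝ) * (fn u e - g)) (wk (fn u) (l1 ++ l2) s - s * g)
    linarith
  · intro t ht
    obtain ⟨c, s, hcs, hc, hs, hf⟩ := rep' t ht
    have hlen : s ≤ (l1 ++ l2).length := by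
      rw [List.length_append]; omega
    have a1 := G4 s hs
    rw [wk_sub (fn u) (fun _ => g / 2), wk_const (g / 2) _ _ hlen] at a1
    rw [hf]
    have a3 : (c : ℝ) ≤ 3 * m0 := by exact_mod_cast hc
    have a4 : (0 : ℝ) ≤ c := Nat.cast_nonneg _
    have ht' : (t : ℝ) = c + s := by rw [← hcs]; push_cast; ring
    have a5 : (0 : ℝ) ≤ c * fn u e := by positivity
    have a6 : g / 2 * c ≤ 3 * m0 := by nlinarith
    rw [ht']
    nlinarith
  · intro t ht1 ht
    rcases cases_time l1.length m0 t with h | ⟨s, hs, rfl⟩ | ⟨c, hc, rfl⟩ | ⟨s, hs, rfl⟩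
    · rw [LL1 _ _ _ _ _ _ h]
      have : (0 : ℝ) < t := by exact_mod_cast ht1
      positivity
    · rw [LL2 _ _ _ _ _ _ hs]
      have := G5 s hs
      linarith
    · rw [LL3 _ _ _ _ _ _ hc]
      have : (0 : ℝ) ≤ c * fn u e := by positivity
      nlinarith
    · rw [LL4]
      have := G7 s (by omega)
      have : (0 : ℝ) < m0 * fn u e := by positivity
      nlinarith
  · intro t ht
    rw [ht0]
    have hmw : (0 : ℝ) < m0 * fn u e := by positivity
    rcases cases_time l1.length m0 t with h | ⟨s, hs, rfl⟩ | ⟨c, hc, rfl⟩ | ⟨s, hs, rfl⟩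
    · rw [LL1 _ _ _ _ _ _ h]
      have : (t : ℝ) * fn u e ≤ m0 * fn u e := by
        apply mul_le_mul_of_nonneg_right _ hw.le
        exact_mod_cast h
      nlinarith
    · rw [LL2 _ _ _ _ _ _ hs]
      have := G6 (l1.length - s) (by omega)
      have h3 : l1.length - (l1.length - s) = s := by omega
      rw [h3] at this
      nlinarith
    · rw [LL3 _ _ _ _ _ _ hc]
      have h3 : (c : ℝ) < m0 := by
        have : c < m0 := by omega
        exact_mod_cast this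
      nlinarith
    · omega
  · intro t ht ht'
    rw [ht0]
    have hmw : (0 : ℝ) < m0 * fn u e := by positivity
    rcases cases_time l1.length m0 t with h | ⟨s, hs, rfl⟩ | ⟨c, hc, rfl⟩ | ⟨s, hs, rfl⟩
    · omega
    · omega
    · rw [LL3 _ _ _ _ _ _ hc]
      have h3 : (m0 : ℝ) < c := by
        have : m0 < c := by omega
        exact_mod_cast this
      nlinarith
    · rw [LL4]
      have := G7 s (by omega)
      nlinarith

lemma exp_le_inv {x : ℝ} (hx : 0 < x) : Real.exp (-x) ≤ 1 / x := by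
  rw [Real.exp_neg, ← one_div]
  exact one_div_le_one_div_of_le hx (by linarith [Real.add_one_le_exp x])

theorem main (hLIN : S_LIN) (hDEV : S_DEV) (hSTAY : S_STAY) : S_EA := by
  intro d p n u g hp hp1 hn0 hn hg hg1 hu hug hpp0 hpp M hM
  have hp' : ∀ e, 0 ≤ p e := fun e => (hp e).le
  obtain ⟨e, he⟩ : ∃ e, 0 < fn u e := by
    by_contra hcon
    push Not at hcon
    have : ∑ e, p e * fn u e ≤ 0 :=
      Finset.sum_nonpos fun e _ => mul_nonpos_of_nonneg_of_nonpos (hp' e) (hcon e)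
    linarith
  obtain ⟨cA, hcA, hS⟩ := hSTAY _ p (fn n) hp' hp1 hn0 hn (16 * M) (by positivity)
  obtain ⟨s5, hs5, hL5⟩ := hLIN _ p (fn u) hp' hp1 (by rw [hug]; exact hg)
  have hmean4 : ∑ e, p e * (fn u e - g / 2) = g / 2 := by
    have : ∑ e, p e * (fn u e - g / 2) = ∑ e, p e * fn u e - (∑ e, p e) * (g / 2) := by
      rw [Finset.sum_mul, ← Finset.sum_sub_distrib]
      exact Finset.sum_congr rfl fun e _ => by ring
    rw [this, hug, hp1]; ring
  have hmean3 : ∑ e, p e * (fn u e - g) = 0 := by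
    have : ∑ e, p e * (fn u e - g) = ∑ e, p e * fn u e - (∑ e, p e) * g := by
      rw [Finset.sum_mul, ← Finset.sum_sub_distrib]
      exact Finset.sum_congr rfl fun e _ => by ring
    rw [this, hug, hp1]; ring
  obtain ⟨s4, hs4, hL4⟩ := hLIN _ p (fun e => fn u e - g / 2) hp' hp1
    (by rw [hmean4]; positivity)
  obtain ⟨m0, hm0⟩ := exists_nat_ge (12 / (s5 * fn u e * cA) + 1)
  have hm0pos : 1 ≤ m0 := by
    have h1 : 0 < 12 / (s5 * fn u e * cA) := by positivity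
    have : (1 : ℝ) ≤ m0 := by linarith
    exact_mod_cast this
  have hm0' : (0 : ℝ) < m0 := by exact_mod_cast hm0pos
  have hfail : 3 * Real.exp (-(s5 * (m0 * fn u e))) ≤ cA / 4 := by
    have h1 : Real.exp (-(s5 * (m0 * fn u e))) ≤ 1 / (s5 * (m0 * fn u e)) :=
      exp_le_inv (by positivity)
    have h2 : 12 / (s5 * fn u e * cA) ≤ m0 := by linarith
    rw [div_le_iff₀ (by positivity)] at h2
    have h3 : 1 / (s5 * (m0 * fn u e)) ≤ cA / 12 := by
      rw [div_le_div_iff₀ (by positivity) (by norm_num)]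
      nlinarith
    linarith
  obtain ⟨r1, hr1⟩ := exists_nat_ge (4 * (2 * (d + 1) * (32 * M) + 2 / s4) / cA)
  refine ⟨(p e) ^ (3 * m0) * (cA / 2), by have := hp e; positivity,
    12 * m0 + r1 + 2, fun r hr t0 T1 T hT1M hrt0 ht0T1 hT1T => ?_⟩
  have hr2 : 2 ≤ r := by omega
  have hrm : 12 * m0 ≤ r := by omega
  have hrr1 : r1 ≤ r := by omega
  have hrR : (1 : ℝ) ≤ r := by exact_mod_cast (by omega : 1 ≤ r)
  have hr2R : (2 : ℝ) ≤ r := by exact_mod_cast hr2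
  have hrpos : (0 : ℝ) < r := by linarith
  obtain ⟨n1, hn1⟩ : ∃ n1, t0 = n1 + 2 * m0 := ⟨t0 - 2 * m0, by omega⟩
  obtain ⟨n2, hn2⟩ : ∃ n2, T = n1 + 3 * m0 + n2 := ⟨T - (n1 + 3 * m0), by omega⟩
  subst hn1 hn2
  have hA1 : n1 + 3 * m0 ≤ T1 := by omega
  have hn1pos : 1 ≤ n1 := by omega
  obtain ⟨Tw, hTw⟩ : ∃ Tw, T1 = Tw + 3 * m0 := ⟨T1 - 3 * m0, by omega⟩
  subst hTw
  have hTw1 : 1 ≤ Tw := by omega
  have hTwN : Tw ≤ n1 + n2 := by omega
  have hTwM : (Tw : ℝ) ≤ M * (r : ℝ) ^ 20 := by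
    refine le_trans ?_ hT1M
    push_cast; linarith
  -- the event G
  have hG1 : cA ≤ Pr p (n1 + n2) (fun W => ∀ s ≤ Tw, 0 < (r : ℝ) ^ 10 / 4 + wk (fn n) W s) := by
    have hR : (1 : ℝ) ≤ (r : ℝ) ^ 10 / 4 := by
      have : (2 : ℝ) ^ 10 ≤ (r : ℝ) ^ 10 := pow_le_pow_left₀ (by norm_num) hr2R 10
      norm_num at this ⊢
      linarith
    have h := hS ((r : ℝ) ^ 10 / 4) ((r : ℝ) ^ 10 / 4) Tw (n1 + n2) hR (by positivity) le_rfl
      (by
        have : 16 * M * ((r : ℝ) ^ 10 / 4) ^ 2 = M * (r : ℝ) ^ 20 := by ring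
        rw [this]; exact hTwM) hTwN
    rwa [mul_div_assoc, div_self (by positivity), mul_one] at h
  have hdev : ∀ f : D d → ℝ, ∑ e, p e * f e = 0 → (∀ e, |f e| ≤ 2) →
      Pr p (n1 + n2) (fun W => ∃ s ≤ Tw, (r : ℝ) ^ 12 / 2 ≤ |wk f W s|) ≤ 2 * (32 * M) / r := by
    intro f hf0 hf
    obtain ⟨b, hb⟩ := Nat.exists_eq_add_of_le hTwN
    rw [hb, Pr_prefix p hp1 Tw b _ (by
      intro l1 l2 h1 h2
      constructor
      · rintro ⟨s, hs, h⟩
        exact ⟨s, hs, by rwa [wk_append_le _ _ _ _ (by omega)] at h⟩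
      · rintro ⟨s, hs, h⟩
        exact ⟨s, hs, by rwa [wk_append_le _ _ _ _ (by omega)]⟩)]
    refine (hDEV _ p f hp' hp1 hf0 2 (by norm_num) hf Tw ((r : ℝ) ^ 12 / 2) hTw1
      (by positivity)).trans ?_
    have hTwpos : (0 : ℝ) < Tw := by exact_mod_cast hTw1
    have h1 : (r : ℝ) / (32 * M) ≤ ((r : ℝ) ^ 12 / 2) ^ 2 / (2 * 2 ^ 2 * Tw) := by
      rw [div_le_div_iff₀ (by positivity) (by positivity)]
      have h2 : (r : ℝ) ^ 21 ≤ (r : ℝ) ^ 24 := pow_le_pow_right₀ hrR (by norm_num)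
      have h3 : (r : ℝ) * (2 * 2 ^ 2 * Tw) ≤ (r : ℝ) * (2 * 2 ^ 2 * (M * (r : ℝ) ^ 20)) := by
        apply mul_le_mul_of_nonneg_left _ hrpos.le
        linarith
      have h4 : (r : ℝ) * (2 * 2 ^ 2 * (M * (r : ℝ) ^ 20)) = 8 * M * (r : ℝ) ^ 21 := by ring
      have h5 : ((r : ℝ) ^ 12 / 2) ^ 2 * (32 * M) = 8 * M * (r : ℝ) ^ 24 := by ring
      rw [h5]
      refine h3.trans (h4.le.trans ?_)
      exact mul_le_mul_of_nonneg_left h2 (by positivity)
    have h2 : Real.exp (-(((r : ℝ) ^ 12 / 2) ^ 2 / (2 * 2 ^ 2 * Tw))) ≤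
        Real.exp (-((r : ℝ) / (32 * M))) := Real.exp_le_exp.2 (by linarith)
    have h3 := exp_le_inv (x := (r : ℝ) / (32 * M)) (by positivity)
    rw [one_div_div] at h3
    calc 2 * Real.exp (-(((r : ℝ) ^ 12 / 2) ^ 2 / (2 * 2 ^ 2 * Tw))) ≤ 2 * (32 * M / r) := by
          linarith
      _ = _ := by ring
  have hB2 : Pr p (n1 + n2) (fun W => ∃ i : Fin d, ∃ s ≤ Tw,
      (r : ℝ) ^ 12 / 2 ≤ |wk (fn (perp u i)) W s|) ≤ d * (2 * (32 * M) / r) := by
    refine (Pr_exists_le p hp' _ _).trans ?_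
    refine (Finset.sum_le_sum fun i _ => hdev (fn (perp u i)) (hpp0 i) (hpp i)).trans ?_
    simp
  have hB3 := hdev (fun e => fn u e - g) hmean3 (by
    intro e
    have h1 := abs_sub (fn u e) g
    rw [abs_of_pos hg] at h1
    have h2 := hu e
    show |fn u e - g| ≤ 2
    linarith)
  have hB4 : Pr p (n1 + n2) (fun W => ∃ s ≤ n1 + n2,
      wk (fun e => fn u e - g / 2) W s ≤ -((r : ℝ) ^ 12 / 2)) ≤ (2 / s4) / r := by
    refine (hL4 (n1 + n2) ((r : ℝ) ^ 12 / 2)).trans ?_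
    refine (exp_le_inv (by positivity)).trans ?_
    have : (r : ℝ) ≤ (r : ℝ) ^ 12 := le_self_pow₀ hrR (by norm_num)
    rw [div_div, div_le_div_iff₀ (by positivity) (by positivity)]
    nlinarith
  have hB5 : Pr p (n1 + n2) (fun W => ∃ s ≤ n1, wk (fn u) W s ≤ -(m0 * fn u e)) ≤
      Real.exp (-(s5 * (m0 * fn u e))) := by
    rw [Pr_prefix p hp1 n1 n2 _ (by
      intro l1 l2 h1 h2
      constructor
      · rintro ⟨s, hs, h⟩
        exact ⟨s, hs, by rwa [wk_append_le _ _ _ _ (by omega)] at h⟩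
      · rintro ⟨s, hs, h⟩
        exact ⟨s, hs, by rwa [wk_append_le _ _ _ _ (by omega)]⟩)]
    exact hL5 n1 _
  have hB6 : Pr p (n1 + n2) (fun W => ∃ s ≤ n1,
      wk (fn u) W n1 - wk (fn u) W (n1 - s) ≤ -(m0 * fn u e)) ≤
      Real.exp (-(s5 * (m0 * fn u e))) := by
    rw [Pr_prefix p hp1 n1 n2 _ (by
      intro l1 l2 h1 h2
      constructor
      · rintro ⟨s, hs, h⟩
        exact ⟨s, hs, by
          rwa [wk_append_le _ _ _ _ (by omega), wk_append_le _ _ _ _ (by omega)] at h⟩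
      · rintro ⟨s, hs, h⟩
        exact ⟨s, hs, by
          rwa [wk_append_le _ _ _ _ (by omega), wk_append_le _ _ _ _ (by omega)]⟩)]
    refine le_trans (le_of_eq ?_) (hL5 n1 (m0 * fn u e))
    rw [← Pr_reverse]
    refine Pr_congr p n1 fun l hl => ?_
    constructor
    · rintro ⟨s, hs, h⟩
      refine ⟨s, hs, ?_⟩
      have := wk_reverse (fn u) l.reverse s (by simp [hl, hs])
      rw [List.length_reverse, hl, List.reverse_reverse] at this
      rw [this]; exact h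
    · rintro ⟨s, hs, h⟩
      refine ⟨s, hs, ?_⟩
      have := wk_reverse (fn u) l.reverse s (by simp [hl, hs])
      rw [List.length_reverse, hl, List.reverse_reverse] at this
      rw [← this]; exact h
  have hB7 : Pr p (n1 + n2) (fun W => ∃ s ≤ n2,
      wk (fn u) W (n1 + s) - wk (fn u) W n1 ≤ -(m0 * fn u e)) ≤
      Real.exp (-(s5 * (m0 * fn u e))) := by
    rw [Pr_suffix p hp1 n1 n2 _ (fun W => ∃ s ≤ n2, wk (fn u) W s ≤ -(m0 * fn u e)) (by
      intro l1 l2 h1 h2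
      have h3 : ∀ s, wk (fn u) (l1 ++ l2) (n1 + s) - wk (fn u) (l1 ++ l2) n1 =
          wk (fn u) l2 s := by
        intro s
        rw [← h1, wk_append_add, wk_append_le _ _ _ _ le_rfl, wk_length]; ring
      simp only [h3])]
    exact hL5 n2 _
  -- union bound
  have hG : cA / 2 ≤ Pr p (n1 + n2)
      (G n u g (fn u e) r m0 n1 n2 (Tw + 3 * m0)) := by
    have hunion : Pr p (n1 + n2) (fun W => ∀ s ≤ Tw, 0 < (r : ℝ) ^ 10 / 4 + wk (fn n) W s) ≤
        Pr p (n1 + n2) (G n u g (fn u e) r m0 n1 n2 (Tw + 3 * m0)) +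
        (Pr p (n1 + n2) (fun W => ∃ i : Fin d, ∃ s ≤ Tw,
          (r : ℝ) ^ 12 / 2 ≤ |wk (fn (perp u i)) W s|) +
        (Pr p (n1 + n2) (fun W => ∃ s ≤ Tw, (r : ℝ) ^ 12 / 2 ≤
          |wk (fun e => fn u e - g) W s|) +
        (Pr p (n1 + n2) (fun W => ∃ s ≤ n1 + n2,
          wk (fun e => fn u e - g / 2) W s ≤ -((r : ℝ) ^ 12 / 2)) +
        (Pr p (n1 + n2) (fun W => ∃ s ≤ n1, wk (fn u) W s ≤ -(m0 * fn u e)) +
        (Pr p (n1 + n2) (fun W => ∃ s ≤ n1,
          wk (fn u) W n1 - wk (fn u) W (n1 - s) ≤ -(m0 * fn u e)) +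
        Pr p (n1 + n2) (fun W => ∃ s ≤ n2,
          wk (fn u) W (n1 + s) - wk (fn u) W n1 ≤ -(m0 * fn u e))))))) := by
      refine le_trans ?_ ((Pr_or_le p hp' _ _ _).trans (add_le_add_right
        ((Pr_or_le p hp' _ _ _).trans (add_le_add_right
        ((Pr_or_le p hp' _ _ _).trans (add_le_add_right
        ((Pr_or_le p hp' _ _ _).trans (add_le_add_right
        ((Pr_or_le p hp' _ _ _).trans (add_le_add_right
        (Pr_or_le p hp' _ _ _) _)) _)) _)) _)) _))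
      refine Pr_mono p hp' _ fun W hW h => ?_
      by_contra hcon
      push Not at hcon
      obtain ⟨c0, c1, c2, c3, c4, c5, c6⟩ := hcon
      refine c0 ⟨?_, ?_, ?_, ?_, ?_, ?_, ?_⟩
      · rw [Nat.add_sub_cancel]; exact h
      · rw [Nat.add_sub_cancel]; exact c1
      · rw [Nat.add_sub_cancel]; exact c2
      · exact c3
      · exact c4
      · exact c5
      · exact c6
    have htail : (d : ℝ) * (2 * (32 * M) / r) + (2 * (32 * M) / r + (2 / s4) / r) ≤ cA / 4 := by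
      have h1 : (d : ℝ) * (2 * (32 * M) / r) + (2 * (32 * M) / r + (2 / s4) / r) =
          (2 * (d + 1) * (32 * M) + 2 / s4) / r := by
        field_simp
        ring
      rw [h1, div_le_iff₀ hrpos]
      have h2 : 4 * (2 * (d + 1) * (32 * M) + 2 / s4) / cA ≤ r :=
        hr1.trans (by exact_mod_cast hrr1)
      rw [div_le_iff₀ hcA] at h2
      linarith
    linarith
  -- insertion of the blocks
  have hlen : n1 + 3 * m0 + n2 = m0 + (n1 + (2 * m0 + n2)) := by ring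
  have hfin : (p e) ^ (3 * m0) * Pr p (n1 + n2) (G n u g (fn u e) r m0 n1 n2 (Tw + 3 * m0)) ≤
      Pr p (n1 + 3 * m0 + n2) (EvA n u g r (n1 + 2 * m0) (Tw + 3 * m0)
        (n1 + 3 * m0 + n2)) := by
    conv_rhs => rw [hlen]
    unfold Pr
    refine le_trans ?_ (Ex_replicate_le p hp' m0 (n1 + (2 * m0 + n2)) e
      (F := fun l => ind (EvA n u g r (n1 + 2 * m0) (Tw + 3 * m0)
        (m0 + (n1 + (2 * m0 + n2))) l))
      (fun l _ => ind_nonneg _))
    have h3 : (p e) ^ (3 * m0) = (p e) ^ m0 * (p e) ^ (2 * m0) := by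
      rw [← pow_add]; congr 1; ring
    rw [h3, mul_assoc]
    refine mul_le_mul_of_nonneg_left ?_ (pow_nonneg (hp' e) _)
    rw [Ex_append, Ex_append p n1 (2 * m0 + n2), ← Ex_mul_left]
    refine Ex_mono p hp' n1 fun l1 h1 => ?_
    refine le_trans ?_ (Ex_replicate_le p hp' (2 * m0) n2 e
      (F := fun l2 => ind (EvA n u g r (n1 + 2 * m0) (Tw + 3 * m0)
        (m0 + (n1 + (2 * m0 + n2))) (List.replicate m0 e ++ (l1 ++ l2))))
      (fun l _ => ind_nonneg _))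
    refine mul_le_mul_of_nonneg_left ?_ (pow_nonneg (hp' e) _)
    refine Ex_mono p hp' n2 fun l2 h2 => ind_mono fun hGG => ?_
    have := det n u g e r m0 n1 n2 (Tw + 3 * m0) hg hg1 hn hu hpp he hm0pos hrm hA1
      (by omega) l1 l2 h1 h2 hGG
    rw [hlen] at this
    exact this
  refine le_trans ?_ hfin
  exact mul_le_mul_of_nonneg_left hG (pow_nonneg (hp' e) _)

end Pool.Agent.Helper51.BW.EA
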