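import Pool.Agent.Helper51.BW.Base

open MeasureTheory Filter Topology

namespace Pool.Agent.Helper51.BW.FAC

lemma exp_sum {d : ℕ} (h : Fin d → ℝ) (l : List (D d)) :
    Real.exp (((l.map (fun e => -(fn h e)))).sum) = Real.exp (-(ip h (pos l l.length))) := by
  congr 1
  rw [← wk_fn, wk_length]
  induction l with
  | nil => simp
  | cons e l ih => simp only [List.map_cons, List.sum_cons, ih]; ring

theorem main : S_FAC := by
  intro d p h j k m Q QA QB QC hp hQ
  unfold Pr
  rw [Ex_tilt p (fun e => -(fn h e)) k]
  have key : Ex p (j + k + m)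
      (fun L => ind (Q L) * Real.exp (ip h (pos L j - pos L (j + k)))) =
      Ex p j (fun lA => Ex p k (fun lB => Ex p m (fun lC =>
        ind (Q (lA.reverse ++ lB.reverse ++ lC)) *
          Real.exp (ip h (pos (lA.reverse ++ lB.reverse ++ lC) j -
            pos (lA.reverse ++ lB.reverse ++ lC) (j + k)))))) := by
    rw [Ex_append, Ex_append]
    rw [← Ex_reverse p j]
    refine Ex_congr p j fun lA _ => ?_
    rw [← Ex_reverse p k]
  rw [key]
  have h1 : Ex p j (fun lA => Ex p k (fun lB => Ex p m (fun lC =>
        (ind (QA lA) * (Real.exp ((lB.map (fun e => -(fn h e))).sum) * ind (QB lB))) *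
          ind (QC lC)))) ≤
      Ex p j (fun lA => Ex p k (fun lB => Ex p m (fun lC =>
        ind (Q (lA.reverse ++ lB.reverse ++ lC)) *
          Real.exp (ip h (pos (lA.reverse ++ lB.reverse ++ lC) j -
            pos (lA.reverse ++ lB.reverse ++ lC) (j + k)))))) := by
    refine Ex_mono p hp j fun lA hA => Ex_mono p hp k fun lB hB => Ex_mono p hp m fun lC hC => ?_
    have hR := rel3 lA lB lC
    rw [hA, hB, hC] at hR
    have h2 := hR.2.1 k le_rfl
    rw [Nat.add_sub_cancel] at h2
    have h3 : ip h (pos (lA.reverse ++ lB.reverse ++ lC) j -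
            pos (lA.reverse ++ lB.reverse ++ lC) (j + k)) = -(ip h (pos lB lB.length)) := by
      rw [h2, hB, ← ip_neg]; congr 1; abel
    rw [h3, exp_sum]
    by_cases hq : QA lA ∧ QB lB ∧ QC lC
    · rw [ind_true hq.1, ind_true hq.2.1, ind_true hq.2.2,
        ind_true (hQ lA lB lC hA hB hC hq.1 hq.2.1 hq.2.2)]
      simp
    · have h0 : (ind (QA lA) * (Real.exp (-(ip h (pos lB lB.length))) * ind (QB lB))) *
          ind (QC lC) = 0 := by
        by_cases ha : QA lA
        · by_cases hb : QB lB
          · have hc : ¬ QC lC := fun hc => hq ⟨ha, hb, hc⟩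
            rw [ind_false hc, mul_zero]
          · rw [ind_false hb]; ring
        · rw [ind_false ha]; ring
      rw [h0]
      exact mul_nonneg (ind_nonneg _) (Real.exp_nonneg _)
  refine le_trans (le_of_eq ?_) h1
  symm
  calc _ = Ex p j (fun lA => Ex p k (fun lB =>
        (ind (QA lA) * (Real.exp ((lB.map (fun e => -(fn h e))).sum) * ind (QB lB))) *
          Ex p m (fun lC => ind (QC lC)))) := by
        refine Ex_congr p j fun lA _ => Ex_congr p k fun lB _ => ?_
        rw [Ex_mul_left]
    _ = Ex p j (fun lA => ind (QA lA) *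
          (Ex p k (fun lB => Real.exp ((lB.map (fun e => -(fn h e))).sum) * ind (QB lB))) *
          Ex p m (fun lC => ind (QC lC))) := by
        refine Ex_congr p j fun lA _ => ?_
        rw [Ex_mul_right, Ex_mul_left]
    _ = _ := by
        rw [Ex_mul_right, Ex_mul_right]

end Pool.Agent.Helper51.BW.FAC
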