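import Pool.Agent.Helper51.BW.Main
import Pool.Agent.Helper51.BW.EA
import Pool.Agent.Helper51.BW.FAC
import Pool.Agent.Helper3.BW.EB
import Pool.Agent.Helper3.BW.EC
import Pool.Agent.Helper3.BW.GAP
import Pool.Agent.Helper4.BW.NET
import Pool.Agent.Helper4.BW.PTH
import Pool.Agent.Helper6.BW.LOW2
import Pool.Agent.Helper16.BW.QL1
import Pool.Agent.Helper29.BW.HITM
import Pool.Agent.Helper39.BW.CNT
import Pool.Agent.Helper39.BW.DEV
import Pool.Agent.Helper39.BW.STAY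
import Pool.Agent.Helper54.BW.GEO1
import Pool.Agent.Helper54.BW.GEO2
import Pool.Agent.Helper54.BW.GEO3
import Pool.Agent.Helper54.BW.GEO4
import Pool.Agent.Helper60.BW.DET
import Pool.Agent.Helper60.BW.HOR
import Pool.Agent.Helper60.BW.LAW
import Pool.Agent.Helper60.BW.REG
import Pool.Agent.Helper70.BW.FLX
import Pool.Agent.Helper70.BW.FUN
import Pool.Agent.Helper70.BW.KOL
import Pool.Agent.Helper70.BW.LIN
import Pool.Agent.Helper70.BW.POS1
import Pool.Agent.Helper70.BW.TILT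
import Pool.Agent.Helper72.BW.MAR
import Pool.Agent.Helper72.BW.ONE
import Pool.Agent.Helper78.BW.QL2
import Pool.Agent.Helper81.BW.AVG
import Pool.Agent.Helper81.BW.LOWR
import Pool.Agent.Helper88.BW.CASES
import Pool.Agent.Helper88.BW.CUTE
import Pool.Agent.Helper88.BW.POS2
import Pool.Agent.Helper88.BW.TYPE1
import Pool.Agent.Helper89.BW.CROSS
import Pool.Agent.Helper91.BW.CND
import Pool.Agent.Helper91.BW.STG1
import Pool.Agent.Helper91.BW.STG2
import Pool.Agent.Helper94.BW.LOW1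
import Pool.Agent.Helper94.BW.TYPE2

/-!
# All parts of stage 1 put together
-/

open MeasureTheory Filter Topology

namespace Pool.Agent.Helper51.BW.All

theorem hKOL : S_KOL := Pool.Agent.Helper70.BW.KOL.main
theorem hLIN : S_LIN := Pool.Agent.Helper70.BW.LIN.main
theorem hDEV : S_DEV := Pool.Agent.Helper39.BW.DEV.main
theorem hSTAY : S_STAY := Pool.Agent.Helper39.BW.STAY.main hKOL
theorem hSTAY0 : S_STAY0 := Pool.Agent.Helper39.BW.STAY.main0 hSTAY
theorem hCNT : S_CNT := Pool.Agent.Helper39.BW.CNT.main hKOL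
theorem hPOS1 : S_POS1 := Pool.Agent.Helper70.BW.POS1.main hLIN
theorem hPOS2 : S_POS2 := Pool.Agent.Helper88.BW.POS2.main hLIN
theorem hEC : S_EC := Pool.Agent.Helper3.BW.EC.main hLIN hSTAY0
theorem hEB : S_EB := Pool.Agent.Helper3.BW.EB.main hCNT hDEV
theorem hEA : S_EA := EA.main hLIN hDEV hSTAY
theorem hFAC : S_FAC := FAC.main
theorem hFUN : S_FUN := Pool.Agent.Helper70.BW.FUN.main
theorem hTYPE1 : S_TYPE1 := Pool.Agent.Helper88.BW.TYPE1.main hPOS1 hPOS2 hFAC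
theorem hTYPE2 : S_TYPE2 := Pool.Agent.Helper94.BW.TYPE2.main hEA hEB hEC hFAC hFUN
  Pool.Agent.Helper54.BW.GEO1.main Pool.Agent.Helper54.BW.GEO2.main
  Pool.Agent.Helper54.BW.GEO3.main Pool.Agent.Helper54.BW.GEO4.main
theorem hTILT : S_TILT := Pool.Agent.Helper70.BW.TILT.main
theorem hCASES : S_CASES := Pool.Agent.Helper88.BW.CASES.main
theorem hNET : S_NET := Pool.Agent.Helper4.BW.NET.main
theorem hPTH : S_PTH := Pool.Agent.Helper4.BW.PTH.main
theorem hFLX : S_FLX := Pool.Agent.Helper70.BW.FLX.main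
theorem hSTG1 : S_STG1 := Pool.Agent.Helper91.BW.STG1.main hNET hPTH
theorem hSTG2a : S_STG2a := Pool.Agent.Helper91.BW.STG2a.main hNET hFLX
theorem hSTG2b : S_STG2b := Pool.Agent.Helper91.BW.STG2b.main hNET hFLX hPTH
theorem hCUTE : S_CUTE := Pool.Agent.Helper88.BW.CUTE.main
theorem hCONN : S_CONN := Pool.Agent.Helper89.BW.CONN.main
theorem hCROSS : S_CROSS := Pool.Agent.Helper89.BW.CROSS.main
theorem hONE : S_ONE := Pool.Agent.Helper72.BW.ONE.main Pool.Agent.Helper72.BW.MAR.main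
theorem hLAW : S_LAW := Pool.Agent.Helper60.BW.LAW.main
theorem hHOR : S_HOR := Pool.Agent.Helper60.BW.HOR.main
theorem hREG : S_REG := Pool.Agent.Helper60.BW.REG.main
theorem hDET : S_DET := Pool.Agent.Helper60.BW.DET.main
theorem hAVG : S_AVG := Pool.Agent.Helper81.BW.AVG.main hDET hREG
theorem hLOWR : S_LOWR := Pool.Agent.Helper81.BW.LOWR.main
theorem hGAP : S_GAP := Pool.Agent.Helper3.BW.GAP.main
theorem hHITM : S_HITM := Pool.Agent.Helper29.BW.HITM.main hONE hSTG1 hCONN hCROSS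
theorem hQL1 : S_QL1 := Pool.Agent.Helper16.BW.QL1.main hONE hSTG2a hCROSS
theorem hQL2 : S_QL2 := Pool.Agent.Helper78.BW.QL2.main hONE hSTG2b hCONN hCROSS hHITM
theorem hLOW1 : S_LOW1 := Pool.Agent.Helper94.BW.LOW1.main hTYPE1 hHOR hQL1 hLOWR
theorem hLOW2 : S_LOW2 := Pool.Agent.Helper6.BW.LOW2.main hTYPE2 hHOR hQL2 hLOWR hGAP

/-- the internal form of the main theorem -/
theorem core (d : ℕ) (hd : 2 ≤ d) (Ω : Type) [MeasurableSpace Ω] (μ : Measure Ω)
    [IsProbabilityMeasure μ] (p : ℕ → D d → ℝ) (X : ℕ → ℕ → Ω → V d) (hp : ∀ i e, 0 < p i e)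
    (hp1 : ∀ i, ∑ e, p i e = 1) (hX : IsIterated μ p X) (i : ℕ) (hi : 1 ≤ i)
    (hpos : ∀ m, 1 ≤ m → m ≤ i → 0 < ∑ e, p 0 e * fn (lhat (p m)) e)
    (hcrit : ∑ e, p 0 e * Real.exp (-(fn (lhat (p i)) e)) = 1) (v : Fin d → ℝ)
    (hv : ∀ᵐ ω ∂μ, Tendsto (fun n : ℕ => fun j => (X i n ω j : ℝ) / n) atTop (𝓝 v)) :
    v = 0 :=
  Main.core hREG hAVG hLOW1 hLOW2 hTILT hCASES d hd Ω μ p X hp hp1 hX i hi hpos hcrit v hv

end Pool.Agent.Helper51.BW.All
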