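import Pool.Agent.Helper51.BW.Spec2

open MeasureTheory Filter Topology

namespace Pool.Agent.Helper51.BW.FIN2

section meas
variable {d : ℕ} {Ω : Type} [MeasurableSpace Ω]

lemma meas_eq {f g : Ω → V d} (hf : Measurable f) (hg : Measurable g) :
    MeasurableSet {ω | f ω = g ω} := measurableSet_eq_fun hf hg

lemma meas_card {Y : ℕ → Ω → V d} (hY : ∀ n, Measurable (Y n)) {z : Ω → V d}
    (hz : Measurable z) (n : ℕ) :
    Measurable (fun ω => ((Finset.range n).filter (fun s => Y s ω = z ω)).card) := by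
  have : (fun ω => ((Finset.range n).filter (fun s => Y s ω = z ω)).card) =
      fun ω => ∑ s ∈ Finset.range n, if Y s ω = z ω then 1 else 0 := by
    funext ω
    rw [Finset.card_filter]
  rw [this]
  refine Finset.measurable_sum _ fun s _ => ?_
  exact Measurable.ite (meas_eq (hY s) hz) measurable_const measurable_const

lemma meas_vis {Y : ℕ → Ω → V d} (hY : ∀ n, Measurable (Y n)) {z y : Ω → V d}
    (hz : Measurable z) (hy : Measurable y) {l : Ω → ℕ} (hl : Measurable l) :
    MeasurableSet {ω | VisB (fun n => Y n ω) (l ω) (z ω) (y ω)} := by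
  have : {ω | VisB (fun n => Y n ω) (l ω) (z ω) (y ω)} =
      ⋃ n, ({ω | Y n ω = y ω} ∩ ((⋂ s ∈ Finset.range n, {ω | Y s ω = y ω}ᶜ) ∩
        {ω | ((Finset.range n).filter (fun s => Y s ω = z ω)).card < l ω})) := by
    ext ω
    simp only [VisB, Set.mem_ofPred_eq, Set.mem_iUnion, Set.mem_inter_iff, Set.mem_iInter,
      Finset.mem_range, Set.mem_compl_iff]
  rw [this]
  refine MeasurableSet.iUnion fun n => (meas_eq (hY n) hy).inter (MeasurableSet.inter ?_ ?_)
  · exact Finset.measurableSet_biInter _ fun s _ => (meas_eq (hY s) hy).compl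
  · exact measurableSet_lt (meas_card hY hz n) hl

lemma sig0_le {X : ℕ → ℕ → Ω → V d} (hX : ∀ n, Measurable (X 0 n)) :
    sig0 X ≤ (inferInstance : MeasurableSpace Ω) := by
  unfold sig0
  refine iSup_le fun s => ?_
  exact (hX s).comap_le

lemma meas_KKs {X : ℕ → ℕ → Ω → V d} (hX : ∀ n, Measurable (X 0 n)) (W : Finset ℕ)
    (Th : ℕ → (ℕ → V d) → Prop)
    (hTh : ∀ k ∈ W, MeasurableSet[sig0 X] {ω | Th k (fun n => X 0 n ω)}) (K' : Finset ℕ) :
    MeasurableSet {ω | KKs W Th (fun n => X 0 n ω) = K'} := by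
  classical
  by_cases hK : K' ⊆ W
  · have : {ω | KKs W Th (fun n => X 0 n ω) = K'} =
        ⋂ k ∈ W, (if k ∈ K' then {ω | Th k (fun n => X 0 n ω)} else
          {ω | Th k (fun n => X 0 n ω)}ᶜ) := by
      ext ω
      simp only [Set.mem_ofPred_eq, Set.mem_iInter, KKs]
      constructor
      · intro h k hk
        split_ifs with hk'
        · rw [← h] at hk'
          exact (Finset.mem_filter.1 hk').2
        · intro hcon
          exact hk' (h ▸ Finset.mem_filter.2 ⟨hk, hcon⟩)
      · intro h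
        ext k
        rw [Finset.mem_filter]
        constructor
        · rintro ⟨hk, hT⟩
          by_contra hk'
          have := h k hk
          rw [if_neg hk'] at this
          exact this hT
        · intro hk'
          have := h k (hK hk')
          rw [if_pos hk'] at this
          exact ⟨hK hk', this⟩
    rw [this]
    refine Finset.measurableSet_biInter _ fun k hk => ?_
    have h1 : MeasurableSet {ω | Th k (fun n => X 0 n ω)} := sig0_le hX _ (hTh k hk)
    split_ifs
    · exact h1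
    · exact h1.compl
  · have : {ω | KKs W Th (fun n => X 0 n ω) = K'} = ∅ := by
      ext ω
      simp only [Set.mem_ofPred_eq, Set.mem_empty_iff_false, iff_false]
      intro h
      apply hK
      rw [← h]
      exact Finset.filter_subset _ _
    rw [this]
    exact MeasurableSet.empty

/-- a function of `KKs` and `ω` which is measurable for each fixed value of `KKs` -/
lemma meas_comp {β : Type} [MeasurableSpace β] {X : ℕ → ℕ → Ω → V d}
    (hX : ∀ n, Measurable (X 0 n)) (W : Finset ℕ) (Th : ℕ → (ℕ → V d) → Prop)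
    (hTh : ∀ k ∈ W, MeasurableSet[sig0 X] {ω | Th k (fun n => X 0 n ω)})
    (g : Finset ℕ → Ω → β) (hg : ∀ K', Measurable (g K')) :
    Measurable (fun ω => g (KKs W Th (fun n => X 0 n ω)) ω) := by
  intro A hA
  have : (fun ω => g (KKs W Th (fun n => X 0 n ω)) ω) ⁻¹' A =
      ⋃ K' ∈ W.powerset, ({ω | KKs W Th (fun n => X 0 n ω) = K'} ∩ (g K') ⁻¹' A) := by
    ext ω
    simp only [Set.mem_preimage, Set.mem_iUnion, Finset.mem_powerset, Set.mem_inter_iff,
      Set.mem_ofPred_eq, exists_prop]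
    constructor
    · intro h
      exact ⟨_, by classical exact Finset.filter_subset _ _, rfl, h⟩
    · rintro ⟨K', _, rfl, h⟩
      exact h
  rw [this]
  exact Finset.measurableSet_biUnion _ fun K' _ => (meas_KKs hX W Th hTh K').inter (hg K' hA)

lemma meas_ip {f : Ω → V d} (hf : Measurable f) (h : Fin d → ℝ) :
    Measurable (fun ω => ip h (f ω)) := by
  unfold ip
  refine Finset.measurable_sum _ fun c _ => ?_
  refine Measurable.const_mul ?_ _
  have h1 : Measurable (fun ω => f ω c) := (measurable_pi_apply c).comp hf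
  have h2 : Measurable (fun z : ℤ => (z : ℝ)) := measurable_from_top
  exact h2.comp h1

lemma meas_lvl {X : ℕ → ℕ → Ω → V d}
    (hX : ∀ n, Measurable (X 0 n)) (W : Finset ℕ) (h : Fin d → ℝ) (κ : ℝ)
    (Th : ℕ → (ℕ → V d) → Prop) (j : ℕ)
    (hTh : ∀ k ∈ W, MeasurableSet[sig0 X] {ω | Th k (fun n => X 0 n ω)}) :
    Measurable (fun ω => lvl W h κ Th j (fun n => X 0 n ω)) := by
  classical
  let g : Finset ℕ → Ω → ℕ := fun K' ω => if K'.Nonempty then
        ⌊κ * ∑ k ∈ K', Real.exp (ip h (X 0 j ω - X 0 (j + k) ω))⌋₊ + 1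
        else 0
  have : (fun ω => lvl W h κ Th j (fun n => X 0 n ω)) =
      fun ω => g (KKs W Th (fun n => X 0 n ω)) ω := by
    funext ω
    unfold lvl
    rfl
  rw [this]
  refine meas_comp (β := ℕ) hX W Th hTh g fun K' => ?_
  show Measurable (fun ω => if K'.Nonempty then
        ⌊κ * ∑ k ∈ K', Real.exp (ip h (X 0 j ω - X 0 (j + k) ω))⌋₊ + 1
        else 0)
  by_cases hK : K'.Nonempty
  · simp only [hK, if_true]
    refine Measurable.add_const ?_ 1
    refine Nat.measurable_floor.comp ?_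
    refine Measurable.const_mul ?_ κ
    refine Finset.measurable_sum _ fun k _ => ?_
    refine Real.measurable_exp.comp ?_
    simp only [ip_sub]
    exact (meas_ip (hX j) h).sub (meas_ip (hX (j + k)) h)
  · simp only [hK, if_false]
    exact measurable_const

end meas

lemma trace_mono {d : ℕ} {Ω : Type} {X : ℕ → ℕ → Ω → V d} {ω : Ω} (h : Reg2 X ω) (i : ℕ) :
    ∀ n, Trace (fun s => X 0 s ω) (X i n ω) (X i (n + 1) ω) := by
  induction i with
  | zero => intro n; exact ⟨n, Or.inl ⟨rfl, rfl⟩⟩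
  | succ i ih =>
    intro n
    obtain ⟨m, hm⟩ := h.2 i n
    rcases hm with ⟨h1, h2⟩ | ⟨h1, h2⟩
    · rw [← h1, ← h2]; exact ih m
    · obtain ⟨k, hk⟩ := ih m
      exact ⟨k, by
        rcases hk with ⟨h3, h4⟩ | ⟨h3, h4⟩
        · right; exact ⟨by rw [h3]; exact h1, by rw [h4]; exact h2⟩
        · left; exact ⟨by rw [h3]; exact h2, by rw [h4]; exact h1⟩⟩

theorem main (hREG2 : S_REG2) (hBAD : S_BADSUM) (hLLN : S_LLN) (hLOCL : S_LOCL)
    (hDET2 : S_DET2) : S_FIN2 := by
  classical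
  intro d Ω _ μ _ p X hp hp1 hX i a h ha hPROP ε hε
  rw [ENNReal.tendsto_nhds_zero]
  intro η hη
  obtain ⟨η', hη'0, hη'⟩ : ∃ η' : ℝ, 0 < η' ∧ ENNReal.ofReal η' ≤ η := by
    rcases eq_or_ne η ⊤ with rfl | hne
    · exact ⟨1, one_pos, le_top⟩
    · exact ⟨η.toReal, ENNReal.toReal_pos hη.ne' hne, by rw [ENNReal.ofReal_toReal hne]⟩
  obtain ⟨κ, W, Th, j0, hκ, hW, hmeas, hgood, hloc, hQ, hM⟩ :=
    hPROP (η' / 16) (by positivity) (8 / ε)
  obtain ⟨K, hK, hae, happ⟩ := hLOCL d Ω μ p X hp hp1 hX a h W Th κ ha hκ hmeas hloc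
  have hreg := hREG2 d Ω μ p X hp hp1 hX
  have hX0 : ∀ n, Measurable (X 0 n) := hX.meas 0
  -- notation
  set F : ℕ → Ω → ℝ := fun j ω => (lvl W h κ (Th j) j (fun n => X 0 n ω) : ℝ) with hF
  set VB : ℕ → Ω → Prop := fun j ω => VisB (fun n => X i n ω)
    (lvl W h κ (Th j) j (fun n => X 0 n ω)) (X 0 j ω)
    (X 0 (j + (KKs W (Th j) (fun n => X 0 n ω)).sup id + 1) ω) with hVB
  have hFm : ∀ j, Measurable (F j) := fun j =>
    (measurable_from_top (f := fun n : ℕ => (n : ℝ))).comp (meas_lvl hX0 W h κ (Th j) j (hmeas j))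
  have hFnn : ∀ j ω, 0 ≤ F j ω := fun j ω => Nat.cast_nonneg _
  have hFK : ∀ j, ∀ᵐ ω ∂μ, F j ω ≤ K := fun j => by
    filter_upwards [hreg] with ω hω
    exact (hK j _ (hω.1 0)).2
  have hFint : ∀ j, Integrable (F j) μ := fun j => by
    refine Integrable.of_bound (hFm j).aestronglyMeasurable K ?_
    filter_upwards [hFK j] with ω hω
    rw [Real.norm_eq_abs, abs_of_nonneg (hFnn j ω)]
    exact hω
  have hVBm : ∀ j, MeasurableSet {ω | VB j ω} := by
    intro j
    have h1 : Measurable (fun ω => X 0 (j + (KKs W (Th j) (fun n => X 0 n ω)).sup id + 1) ω) :=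
      meas_comp (β := V d) hX0 W (Th j) (hmeas j) (fun K' ω => X 0 (j + K'.sup id + 1) ω)
        fun K' => hX0 _
    exact meas_vis (hX.meas i) (hX0 j) h1 (meas_lvl hX0 W h κ (Th j) j (hmeas j))
  have hindm : ∀ j, Measurable (fun ω => ind (VB j ω)) := by
    intro j
    unfold ind
    exact Measurable.ite (hVBm j) measurable_const measurable_const
  have hGint : ∀ j, Integrable (fun ω => F j ω * ind (VB j ω)) μ := fun j => by
    refine Integrable.mono (hFint j) ((hFm j).mul (hindm j)).aestronglyMeasurable ?_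
    refine Filter.Eventually.of_forall fun ω => ?_
    rw [norm_mul]
    have : ‖ind (VB j ω)‖ ≤ 1 := by
      rw [Real.norm_eq_abs, abs_of_nonneg (ind_nonneg _)]
      exact ind_le_one _
    calc ‖F j ω‖ * ‖ind (VB j ω)‖ ≤ ‖F j ω‖ * 1 :=
          mul_le_mul_of_nonneg_left this (norm_nonneg _)
      _ = ‖F j ω‖ := mul_one _
  have hK0 : 0 ≤ K := by
    obtain ⟨ω, h1, h2⟩ := (hreg.and (hFK 0)).exists
    exact (hFnn 0 ω).trans h2
  -- expectation of the bad levels
  have hbad : ∀ j ≥ j0, ∫ ω, F j ω * ind (VB j ω) ∂μ ≤ η' / 16 * ∫ ω, F j ω ∂μ := by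
    intro j hj
    have hN : ∀ k ∈ W, j + k + 1 ≤ j + W.sup id + 1 := by
      intro k hk
      have : id k ≤ W.sup id := Finset.le_sup hk
      simp only [id] at this
      omega
    exact hBAD d Ω μ p X hp hp1 hX i h W (Th j) j (j + W.sup id + 1) κ (η' / 16) hκ
      (by positivity) (hmeas j) hN (hQ j hj _ hN)
  have hlln := hLLN d Ω μ p X hp hp1 hX (fun j S => (lvl W h κ (Th j) j S : ℝ)) K hK hae happ
    ((8 / ε) / 4) (by positivity) (η' / 4) (by positivity)
  -- the sequence n(t)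
  set C' : ℕ := W.sup id + 3 with hC'
  have hnt : Tendsto (fun t : ℕ => ⌊ε * t⌋₊ - C') atTop atTop := by
    have h1 : Tendsto (fun t : ℕ => ε * (t : ℝ)) atTop atTop :=
      tendsto_natCast_atTop_atTop.const_mul_atTop hε
    have h2 : Tendsto (fun t : ℕ => ⌊ε * (t : ℝ)⌋₊) atTop atTop := tendsto_nat_floor_atTop.comp h1
    exact (tendsto_sub_atTop_nat C').comp h2
  have hev1 := hnt.eventually hlln
  have hev2 := hnt.eventually (eventually_ge_atTop (j0 + 1))
  obtain ⟨t1, ht1⟩ := exists_nat_ge ((3 / 4 * (8 / ε) * j0 + j0 * K +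
    (8 / ε) / 2 * (C' + 1)) / 3 + 1)
  filter_upwards [hev1, hev2, eventually_ge_atTop t1] with t hl hn htt1
  set n := ⌊ε * t⌋₊ - C' with hnn
  have hMpos : 0 < 8 / ε := by positivity
  -- expectation
  set En : ℝ := ∑ j ∈ Finset.range n, ∫ ω, F j ω ∂μ with hEn
  have hEn_split : ∑ j ∈ Finset.Ico j0 n, ∫ ω, F j ω ∂μ ≤ En := by
    rw [hEn]
    refine Finset.sum_le_sum_of_subset_of_nonneg ?_ fun j _ _ =>
      integral_nonneg fun ω => hFnn j ω
    intro j hj
    exact Finset.mem_range.2 (Finset.mem_Ico.1 hj).2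
  have hEnM : (8 / ε) * ((n : ℝ) - j0) ≤ En := by
    refine le_trans ?_ hEn_split
    have h1 : ∑ _j ∈ Finset.Ico j0 n, (8 / ε) ≤ ∑ j ∈ Finset.Ico j0 n, ∫ ω, F j ω ∂μ :=
      Finset.sum_le_sum fun j hj => hM j (Finset.mem_Ico.1 hj).1
    rw [Finset.sum_const, Nat.card_Ico, nsmul_eq_mul] at h1
    refine le_trans (le_of_eq ?_) h1
    rw [Nat.cast_sub (by omega : j0 ≤ n)]
    ring
  have hnj : (0 : ℝ) < (n : ℝ) - j0 := by
    have : (j0 : ℝ) + 1 ≤ n := by exact_mod_cast hn
    linarith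
  have hEnpos : 0 < En := lt_of_lt_of_le (by positivity) hEnM
  -- bad part
  set Dn : Ω → ℝ := fun ω => ∑ j ∈ Finset.Ico j0 n, F j ω * ind (VB j ω) with hDn
  have hDint : Integrable Dn μ := integrable_finsetSum _ fun j _ => hGint j
  have hDnn : ∀ ω, 0 ≤ Dn ω := fun ω =>
    Finset.sum_nonneg fun j _ => mul_nonneg (hFnn j ω) (ind_nonneg _)
  have hDE : ∫ ω, Dn ω ∂μ ≤ η' / 16 * En := by
    rw [hDn, integral_finsetSum _ fun j _ => hGint j]
    refine (Finset.sum_le_sum fun j hj => hbad j (Finset.mem_Ico.1 hj).1).trans ?_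
    rw [← Finset.mul_sum]
    exact mul_le_mul_of_nonneg_left hEn_split (by positivity)
  have hmark : μ {ω | En / 4 ≤ Dn ω} ≤ ENNReal.ofReal (η' / 4) := by
    have h1 := mul_meas_ge_le_integral_of_nonneg (μ := μ)
      (Filter.Eventually.of_forall hDnn) hDint (En / 4)
    have h2 : μ.real {ω | En / 4 ≤ Dn ω} ≤ η' / 4 := by
      have h3 : En / 4 * μ.real {ω | En / 4 ≤ Dn ω} ≤ η' / 16 * En := h1.trans hDE
      have h4 : En / 4 * μ.real {ω | En / 4 ≤ Dn ω} ≤ En / 4 * (η' / 4) := by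
        refine h3.trans (le_of_eq ?_); ring
      exact le_of_mul_le_mul_left h4 (by positivity)
    rw [← ENNReal.ofReal_toReal (measure_ne_top μ {ω | En / 4 ≤ Dn ω})]
    exact ENNReal.ofReal_le_ofReal h2
  -- inclusion
  have hincl : ∀ᵐ ω ∂μ, ω ∈ {ω | ε * t ≤ ∑ c, |(X i t ω c : ℝ)|} →
      ω ∈ ({ω | ∑ j ∈ Finset.range n, F j ω < En - (8 / ε) / 4 * n} ∪
        {ω | En / 4 ≤ Dn ω} : Set Ω) := by
    have hall : ∀ᵐ ω ∂μ, ∀ j, F j ω ≤ K := ae_all_iff.2 hFK
    filter_upwards [hreg, hall] with ω hω hFKω hA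
    have hA : ε * t ≤ ∑ c, |(X i t ω c : ℝ)| := hA
    by_contra hcon
    simp only [Set.mem_union, Set.mem_ofPred_eq, not_or, not_lt, not_le] at hcon
    obtain ⟨h1, h2⟩ := hcon
    have hdet := hDET2 d (fun n => X 0 n ω) (fun n => X i n ω) t
      ((Finset.Ico j0 n).filter (fun j => (KKs W (Th j) (fun n => X 0 n ω)).Nonempty))
      (fun j => lvl W h κ (Th j) j (fun n => X 0 n ω))
      (fun j => j + (KKs W (Th j) (fun n => X 0 n ω)).sup id)
      (hω.1 0) (hX.start i ω) (trace_mono hω i) (by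
        intro j hj
        rw [Finset.mem_filter, Finset.mem_Ico] at hj
        obtain ⟨⟨hj0, hjn⟩, hne⟩ := hj
        obtain ⟨k, hk, hksup⟩ := Finset.exists_mem_eq_sup _ hne id
        have hkW : k ∈ W ∧ Th j k (fun n => X 0 n ω) := by
          have := hk
          unfold KKs at this
          exact Finset.mem_filter.1 this
        have hg := hgood j k hkW.1 _ hkW.2
        simp only [id] at hksup
        refine ⟨hg.2, by omega, ?_, ?_⟩
        · rw [hksup]; exact hg.1
        · rw [hksup]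
          have h5 : k ≤ W.sup id := Finset.le_sup (f := id) hkW.1
          have h6 : j + k + 2 ≤ ⌊ε * t⌋₊ := by omega
          have h7 : ((j + k + 2 : ℕ) : ℝ) ≤ ε * t :=
            (Nat.le_floor_iff (by positivity)).1 h6
          push_cast at h7 ⊢
          linarith)
    -- the sum over J is the sum over the whole interval
    have hsum : ∑ j ∈ Finset.Ico j0 n, F j ω * ind (¬ VB j ω) ≤ t := by
      refine le_trans (le_of_eq ?_) hdet
      rw [Finset.sum_filter]
      refine Finset.sum_congr rfl fun j _ => ?_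
      split_ifs with hne
      · rfl
      · have : F j ω = 0 := by
          rw [hF]
          simp only []
          unfold lvl
          rw [if_neg hne]
          simp
        rw [this, zero_mul]
    have hsplit : ∑ j ∈ Finset.Ico j0 n, F j ω =
        ∑ j ∈ Finset.Ico j0 n, F j ω * ind (¬ VB j ω) + Dn ω := by
      rw [hDn, ← Finset.sum_add_distrib]
      refine Finset.sum_congr rfl fun j _ => ?_
      rw [ind_not]; ring
    have hhead : ∑ j ∈ Finset.range j0, F j ω ≤ j0 * K := by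
      refine (Finset.sum_le_sum fun j _ => hFKω j).trans ?_
      rw [Finset.sum_const, Finset.card_range, nsmul_eq_mul]
    have htot : ∑ j ∈ Finset.range n, F j ω =
        ∑ j ∈ Finset.range j0, F j ω + ∑ j ∈ Finset.Ico j0 n, F j ω :=
      (Finset.sum_range_add_sum_Ico _ (by omega)).symm
    have hnlow : ε * t - (C' + 1) ≤ n := by
      have h5 := Nat.lt_floor_add_one (ε * t)
      have h6 : (⌊ε * t⌋₊ : ℝ) ≤ (n : ℝ) + C' := by
        have : ⌊ε * t⌋₊ ≤ n + C' := by omega
        exact_mod_cast this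
      linarith
    have h8 : (8 / ε) / 2 * (ε * t - (C' + 1)) ≤ (8 / ε) / 2 * n :=
      mul_le_mul_of_nonneg_left hnlow (by positivity)
    have h9 : (8 / ε) / 2 * (ε * t - (C' + 1)) = 4 * t - (8 / ε) / 2 * (C' + 1) := by
      field_simp
      ring
    have h10 : (t1 : ℝ) ≤ t := by exact_mod_cast htt1
    have h11 : (8 / ε) * ((n : ℝ) - j0) = (8 / ε) * n - (8 / ε) * j0 := by ring
    nlinarith
  calc μ {ω | ε * t ≤ ∑ c, |(X i t ω c : ℝ)|}
      ≤ μ ({ω | ∑ j ∈ Finset.range n, F j ω < En - (8 / ε) / 4 * n} ∪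
        {ω | En / 4 ≤ Dn ω} : Set Ω) := measure_mono_ae hincl
    _ ≤ μ {ω | ∑ j ∈ Finset.range n, F j ω < En - (8 / ε) / 4 * n} +
        μ {ω | En / 4 ≤ Dn ω} := measure_union_le _ _
    _ ≤ ENNReal.ofReal (η' / 4) + ENNReal.ofReal (η' / 4) := add_le_add hl hmark
    _ = ENNReal.ofReal (η' / 2) := by
        rw [← ENNReal.ofReal_add (by positivity) (by positivity)]; congr 1; ring
    _ ≤ ENNReal.ofReal η' := ENNReal.ofReal_le_ofReal (by linarith)
    _ ≤ η := hη'

end Pool.Agent.Helper51.BW.FIN2
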