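import Pool.Agent.Helper51.BW.Spec2

/-!
# Assembly of stage 2
-/

open MeasureTheory Filter Topology

namespace Pool.Agent.Helper51.BW.Main2

/-- convergence in probability -/
theorem core (hFIN2 : S_FIN2) (hP1 : S_PROP1) (hP2 : S_PROP2) (hTILT : S_TILT)
    (hCASES : S_CASES) (d : ℕ) (hd : 2 ≤ d) (Ω : Type) [MeasurableSpace Ω] (μ : Measure Ω)
    [IsProbabilityMeasure μ] (p : ℕ → D d → ℝ) (X : ℕ → ℕ → Ω → V d) (hp : ∀ i e, 0 < p i e)
    (hp1 : ∀ i, ∑ e, p i e = 1) (hX : IsIterated μ p X) (i : ℕ) (hi : 1 ≤ i)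
    (hpos : ∀ m, 1 ≤ m → m ≤ i → 0 < ∑ e, p 0 e * fn (lhat (p m)) e)
    (hcrit : ∑ e, p 0 e * Real.exp (-(fn (lhat (p i)) e)) = 1) (ε : ℝ) (hε : 0 < ε) :
    Tendsto (fun t : ℕ => μ {ω | ε * t ≤ ∑ c, |(X i t ω c : ℝ)|}) atTop (𝓝 0) := by
  have ht := hTILT d (p 0) (lhat (p i)) (hp 0) (hp1 0) hcrit (hpos i hi le_rfl)
  have hq : ∀ e, 0 < p 0 e * Real.exp (-(fn (lhat (p i)) e)) :=
    fun e => mul_pos (hp 0 e) (Real.exp_pos _)
  have hPROP : PROP μ X i (lhat (p i)) := by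
    rcases hCASES d hd (p 0) (fun e => p 0 e * Real.exp (-(fn (lhat (p i)) e))) (lhat (p i))
      (hp 0) hq (hpos i hi le_rfl) ht with h | h
    · exact hP1 d Ω μ p X hp hp1 hX i hi hcrit h
    · exact hP2 d Ω μ p X hp hp1 hX i hi hpos hcrit h
  exact hFIN2 d Ω μ p X hp hp1 hX i (lhat (p i)) (lhat (p i)) (hpos i hi le_rfl) hPROP ε hε

/-- if the walk is `o(n)` in probability then every almost sure limit of `X_n/n` is `0` -/
theorem limit_zero {d : ℕ} {Ω : Type} [MeasurableSpace Ω] (μ : Measure Ω)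
    [IsProbabilityMeasure μ] (Y : ℕ → Ω → V d)
    (h : ∀ ε : ℝ, 0 < ε →
      Tendsto (fun t : ℕ => μ {ω | ε * t ≤ ∑ c, |(Y t ω c : ℝ)|}) atTop (𝓝 0)) :
    ∀ᵐ ω ∂μ, ∀ v : Fin d → ℝ,
      Tendsto (fun n : ℕ => fun j => (Y n ω j : ℝ) / n) atTop (𝓝 v) → v = 0 := by
  -- the events of linear growth are null
  have hnull : ∀ m : ℕ, ∀ᵐ ω ∂μ, ¬ ∃ N : ℕ, ∀ n ≥ N,
      (1 / ((m : ℝ) + 1)) * n ≤ ∑ c, |(Y n ω c : ℝ)| := by
    intro m
    have h1 : ∀ N : ℕ, μ {ω | ∀ n ≥ N, (1 / ((m : ℝ) + 1)) * n ≤ ∑ c, |(Y n ω c : ℝ)|} = 0 := by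
      intro N
      have h2 := h (1 / ((m : ℝ) + 1)) (by positivity)
      refine le_antisymm ?_ zero_le
      refine ge_of_tendsto h2 ?_
      filter_upwards [eventually_ge_atTop N] with n hn
      exact measure_mono fun ω hω => hω n hn
    have h3 : μ (⋃ N : ℕ, {ω | ∀ n ≥ N, (1 / ((m : ℝ) + 1)) * n ≤ ∑ c, |(Y n ω c : ℝ)|}) = 0 :=
      measure_iUnion_null h1
    rw [ae_iff]
    refine measure_mono_null ?_ h3
    intro ω hω
    simp only [Set.mem_ofPred_eq, not_not] at hω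
    obtain ⟨N, hN⟩ := hω
    exact Set.mem_iUnion.2 ⟨N, hN⟩
  filter_upwards [ae_all_iff.2 hnull] with ω hω v hv
  by_contra hv0
  obtain ⟨j0, hj0⟩ : ∃ j, v j ≠ 0 := by
    by_contra hcon
    exact hv0 (funext fun j => not_not.1 fun hj => hcon ⟨j, hj⟩)
  have hpos : 0 < |v j0| := abs_pos.2 hj0
  obtain ⟨m, hm⟩ := exists_nat_one_div_lt (half_pos hpos)
  refine hω m ?_
  have hj : Tendsto (fun n : ℕ => |(Y n ω j0 : ℝ) / n|) atTop (𝓝 |v j0|) :=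
    ((tendsto_pi_nhds.1 hv) j0).abs
  have hev := hj.eventually (lt_mem_nhds (by linarith : |v j0| / 2 < |v j0|))
  obtain ⟨N, hN⟩ := eventually_atTop.1 hev
  refine ⟨N + 1, fun n hn => ?_⟩
  have hn0 : (0 : ℝ) < n := by
    have : 0 < n := by omega
    exact_mod_cast this
  have h1 := hN n (by omega)
  rw [abs_div, abs_of_pos hn0, lt_div_iff₀ hn0] at h1
  have h2 : |(Y n ω j0 : ℝ)| ≤ ∑ c, |(Y n ω c : ℝ)| :=
    Finset.single_le_sum (f := fun c => |(Y n ω c : ℝ)|) (fun c _ => abs_nonneg _)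
      (Finset.mem_univ j0)
  have h3 : 1 / ((m : ℝ) + 1) * n ≤ |v j0| / 2 * n := mul_le_mul_of_nonneg_right hm.le hn0.le
  linarith

end Pool.Agent.Helper51.BW.Main2
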