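import Pool.Agent.Helper51.BW.All
import Pool.Agent.Helper51.BW.FIN2
import Pool.Agent.Helper51.BW.Main2
import Pool.Agent.Helper6.BW.PROP2
import Pool.Agent.Helper27.BW.PROP1
import Pool.Agent.Helper29.BW.HITM2
import Pool.Agent.Helper33.BW.COV
import Pool.Agent.Helper33.BW.LLN
import Pool.Agent.Helper60.BW.REG2
import Pool.Agent.Helper60.BW.QB1
import Pool.Agent.Helper78.BW.QB2
import Pool.Agent.Helper81.BW.BADSUM
import Pool.Agent.Helper87.BW.DET2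
import Pool.Agent.Helper87.BW.LOCL
import Pool.Agent.Helper88.BW.RETB

/-!
# All parts of stage 2 put together
-/

open MeasureTheory Filter Topology

namespace Pool.Agent.Helper51.BW.All2

open Pool.Agent.Helper51.BW.All

theorem hREG2 : S_REG2 := Pool.Agent.Helper60.BW.REG2.main
theorem hCOV : S_COV := Pool.Agent.Helper33.BW.COV.main hLAW
theorem hLLN : S_LLN := Pool.Agent.Helper33.BW.LLN.main hCOV hREG2
theorem hRETB : S_RETB := Pool.Agent.Helper88.BW.RETB.main hLAW hLIN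
theorem hLOCL : S_LOCL := Pool.Agent.Helper87.BW.LOCL.main hRETB hREG2
theorem hDET2 : S_DET2 := Pool.Agent.Helper87.BW.DET2.main
theorem hBADSUM : S_BADSUM := Pool.Agent.Helper81.BW.BADSUM.main hREG2
theorem hHITM2 : S_HITM2 := Pool.Agent.Helper29.BW.HITM2.main hREG2 hONE hSTG1 hCONN
theorem hQB1 : S_QB1 := Pool.Agent.Helper60.BW.QB1.main hONE hSTG2a
theorem hQB2 : S_QB2 := Pool.Agent.Helper78.BW.QB2.main hONE hSTG2b hCONN hREG2 hHITM2
theorem hPROP1 : S_PROP1 := Pool.Agent.Helper27.BW.PROP1.main hTYPE1 hHOR hQB1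
theorem hPROP2 : S_PROP2 := Pool.Agent.Helper6.BW.PROP2.main hTYPE2 hHOR hQB2 hGAP hREG2 hLOCL
theorem hFIN2 : S_FIN2 := FIN2.main hREG2 hBADSUM hLLN hLOCL hDET2

/-- convergence to `0` in probability -/
theorem core (d : ℕ) (hd : 2 ≤ d) (Ω : Type) [MeasurableSpace Ω] (μ : Measure Ω)
    [IsProbabilityMeasure μ] (p : ℕ → D d → ℝ) (X : ℕ → ℕ → Ω → V d) (hp : ∀ i e, 0 < p i e)
    (hp1 : ∀ i, ∑ e, p i e = 1) (hX : IsIterated μ p X) (i : ℕ) (hi : 1 ≤ i)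
    (hpos : ∀ m, 1 ≤ m → m ≤ i → 0 < ∑ e, p 0 e * fn (lhat (p m)) e)
    (hcrit : ∑ e, p 0 e * Real.exp (-(fn (lhat (p i)) e)) = 1) (ε : ℝ) (hε : 0 < ε) :
    Tendsto (fun t : ℕ => μ {ω | ε * t ≤ ∑ c, |(X i t ω c : ℝ)|}) atTop (𝓝 0) :=
  Main2.core hFIN2 hPROP1 hPROP2 hTILT hCASES d hd Ω μ p X hp hp1 hX i hi hpos hcrit ε hε

end Pool.Agent.Helper51.BW.All2
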