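import Mathlib

/-!
# Iterated biased walks on traces: definitions

The lattice `V d = Z^d`, the `2d` directions, the trace of a path, the transition
probabilities of a biased walk on a subgraph, and the iterated walks.
-/

open MeasureTheory Filter Topology

namespace Pool.Agent.Helper51.BW

/-- vertices of the lattice `Z^d` -/
abbrev V (d : ℕ) := Fin d → ℤ

/-- the `2d` directions: `(j, true)` is `+e_j` and `(j, false)` is `-e_j` -/
abbrev D (d : ℕ) := Fin d × Bool

/-- the unit vector of a direction -/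
def dir {d : ℕ} (e : D d) : V d := Pi.single e.1 (if e.2 then 1 else -1)

/-- The trace of a path `Y`, as a symmetric relation: `x ~ y` when the path crosses the edge
`{x, y}` in one direction or the other. -/
def Trace {d : ℕ} (Y : ℕ → V d) (x y : V d) : Prop :=
  ∃ n, (Y n = x ∧ Y (n + 1) = y) ∨ (Y n = y ∧ Y (n + 1) = x)

open Classical in
/-- Transition probability from `x` to `x + e` of the `p`-walk on the graph `G`. -/
noncomputable def trans {d : ℕ} (p : D d → ℝ) (G : V d → V d → Prop) (x : V d) (e : D d) : ℝ :=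
  if G x (x + dir e) then p e / ∑ e', (if G x (x + dir e') then p e' else 0) else 0

/-- the drift `δ_j = p(e_j) - p(-e_j)` -/
def drift {d : ℕ} (p : D d → ℝ) (j : Fin d) : ℝ := p (j, true) - p (j, false)

/-- `lhat_j = log (p(e_j) / p(-e_j))` -/
noncomputable def lhat {d : ℕ} (p : D d → ℝ) (j : Fin d) : ℝ :=
  Real.log (p (j, true) / p (j, false))

/-- The graph on which the `i`-th walk moves: the whole lattice for `i = 0` and the trace of
the walk number `i - 1` for `i ≥ 1`. -/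
def env {d : ℕ} {Ω : Type} (X : ℕ → ℕ → Ω → V d) (i : ℕ) (ω : Ω) : V d → V d → Prop :=
  match i with
  | 0 => fun _ _ => True
  | m + 1 => Trace (fun n => X m n ω)

/-- The σ-algebra generated by the walks `X 0, …, X (i-1)` and by `X i` up to time `n`. -/
def past {d : ℕ} {Ω : Type} (X : ℕ → ℕ → Ω → V d) (i n : ℕ) : MeasurableSpace Ω :=
  (⨆ (m : ℕ) (_ : m < i) (s : ℕ), MeasurableSpace.comap (X m s) inferInstance) ⊔
    (⨆ (s : ℕ) (_ : s ≤ n), MeasurableSpace.comap (X i s) inferInstance)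

/-- The iterated walks: all walks start at `0`, and given the walks `X 0, …, X (i-1)` and the
past of `X i` up to time `n`, the conditional probability that `X i` makes the step `e` at
time `n` is the transition probability of the `p i`-walk on the graph number `i`. -/
structure IsIterated {d : ℕ} {Ω : Type} [MeasurableSpace Ω] (μ : Measure Ω)
    (p : ℕ → D d → ℝ) (X : ℕ → ℕ → Ω → V d) : Prop where
  meas : ∀ i n, Measurable (X i n)
  start : ∀ i ω, X i 0 ω = 0
  step : ∀ i n e, μ[Set.indicator {ω | X i (n + 1) ω = X i n ω + dir e} (fun _ => (1 : ℝ)) |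
      past X i n] =ᵐ[μ] fun ω => trans (p i) (env X i ω) (X i n ω) e

/-- real inner product with a lattice vector -/
def ip {d : ℕ} (a : Fin d → ℝ) (z : V d) : ℝ := ∑ j, a j * (z j : ℝ)

/-- the functional of a direction given by a real vector -/
def fn {d : ℕ} (a : Fin d → ℝ) (e : D d) : ℝ := ip a (dir e)

/-- the vector `e_i - u_i u` -/
def perp {d : ℕ} (u : Fin d → ℝ) (i : Fin d) : Fin d → ℝ :=
  fun j => (if j = i then 1 else 0) - u i * u j

/-! ### finite horizon i.i.d. sequences -/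

/-- expectation of a functional of `n` independent letters with law `p` -/
noncomputable def Ex {α : Type} [Fintype α] (p : α → ℝ) : ℕ → (List α → ℝ) → ℝ
  | 0, F => F []
  | n + 1, F => ∑ e, p e * Ex p n (fun l => F (e :: l))

open Classical in
/-- indicator of a proposition -/
noncomputable def ind (Q : Prop) : ℝ := if Q then 1 else 0

/-- probability of an event of `n` independent letters with law `p` -/
noncomputable def Pr {α : Type} [Fintype α] (p : α → ℝ) (n : ℕ) (Q : List α → Prop) : ℝ :=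
  Ex p n (fun l => ind (Q l))

/-- the walk with increments `f` -/
def wk {α : Type} (f : α → ℝ) (l : List α) (t : ℕ) : ℝ := ((l.take t).map f).sum

/-- position at time `t` of the lattice path with steps `l` -/
def pos {d : ℕ} (l : List (D d)) (t : ℕ) : V d := ((l.take t).map dir).sum

/-- `b` is a cut time of the path `S` -/
def IsCut {d : ℕ} (S : ℕ → V d) (b : ℕ) : Prop := ∀ s t, s ≤ b → b < t → S s ≠ S t

/-- `b` is a cut time of the path `S` restricted to `[0,T]` -/
def CutT {d : ℕ} (S : ℕ → V d) (b T : ℕ) : Prop :=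
  ∀ s t, s ≤ b → b < t → t ≤ T → S s ≠ S t

/-- nearest neighbour path from `0` -/
def PathHyp {d : ℕ} (S : ℕ → V d) : Prop := S 0 = 0 ∧ ∀ t, ∃ e, S (t + 1) = S t + dir e

/-- `z` is visited at least `l` times -/
def HitsGE {d : ℕ} (Y : ℕ → V d) (l : ℕ) (z : V d) : Prop :=
  ∃ T, l ≤ ((Finset.range T).filter (fun n => Y n = z)).card

open Classical in
/-- `min (number of visits of Y to S_j) K`, counted only when `S_j` is a new point of `S` -/
noncomputable def Ycnt {d : ℕ} (K : ℕ) (S Y : ℕ → V d) (j : ℕ) : ℝ :=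
  if (∀ s < j, S s ≠ S j) then ∑ l ∈ Finset.Icc 1 K, (if HitsGE Y l (S j) then (1 : ℝ) else 0)
  else 0

/-- almost sure properties of the walks number `0, …, i` -/
def Reg {d : ℕ} {Ω : Type} (X : ℕ → ℕ → Ω → V d) (i : ℕ) (ω : Ω) : Prop :=
  (∀ m ≤ i, PathHyp (fun n => X m n ω)) ∧
  (∀ m < i, ∀ n, Trace (fun s => X m s ω) (X (m + 1) n ω) (X (m + 1) (n + 1) ω)) ∧
  (∀ F : Finset (V d), ∃ n, X i n ω ∉ F)

/-- the walk `Y` visits `x` before the set `B` -/
def Hit {d : ℕ} (Y : ℕ → V d) (x : V d) (B : Finset (V d)) : Prop :=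
  ∃ n, Y n = x ∧ ∀ s ≤ n, Y s ∉ B

open Classical in
/-- low vertices of the segment `(a, b]` of the path `S` -/
noncomputable def lowSet {d : ℕ} (S : ℕ → V d) (a b : ℕ) (u : Fin d → ℝ) (θ : ℝ) :
    Finset (V d) :=
  ((Finset.Ioc a b).image S).filter (fun z => ip u (z - S b) < θ)

/-! ### finite networks -/

/-- energy of `f` on the finite network `U` with conductances `c` -/
noncomputable def En {α : Type} (U : Finset α) (c : α → α → ℝ) (f : α → ℝ) : ℝ :=
  (∑ z ∈ U, ∑ z' ∈ U, c z z' * (f z' - f z) ^ 2) / 2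

open Classical in
/-- conductance between `z` and `z'` of the `p`-walk on `G` -/
noncomputable def cnd {d : ℕ} (p : D d → ℝ) (G : V d → V d → Prop) (z z' : V d) : ℝ :=
  ∑ e, if z + dir e = z' ∧ G z z' then p e * Real.exp (ip (lhat p) z) else 0

/-! ### events for the three strands -/

/-- event for the future strand -/
def EvC {d : ℕ} (n u : Fin d → ℝ) (g : ℝ) (r T1 T : ℕ) (l : List (D d)) : Prop :=
  (∀ t, 1 ≤ t → t ≤ T1 → 0 < wk (fn n) l t) ∧
  (∀ t : ℕ, t ≤ T → g / 2 * t - (r : ℝ) ^ 12 ≤ wk (fn u) l t)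

/-- event for the middle strand -/
def EvB {d : ℕ} (n u : Fin d → ℝ) (gB C2 : ℝ) (r k : ℕ) (l : List (D d)) : Prop :=
  (∀ t, 1 ≤ t → t ≤ k → 0 < wk (fn n) l t) ∧
  (r : ℝ) ^ 10 ≤ wk (fn n) l k ∧
  (∀ i, ∀ t ≤ k, |wk (fn (perp u i)) l t| ≤ (r : ℝ) ^ 12) ∧
  (∀ t : ℕ, t ≤ k → |wk (fn u) l t + gB * t| ≤ (r : ℝ) ^ 12) ∧
  (∀ t : ℕ, t ≤ k → (t : ℝ) ≤ C2 * (r : ℝ) ^ 15 → |wk (fn n) l t| ≤ (r : ℝ) ^ 10 / 4)

/-- event for the past strand -/
def EvA {d : ℕ} (n u : Fin d → ℝ) (g : ℝ) (r t0 T1 T : ℕ) (l : List (D d)) : Prop :=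
  (∀ t ≤ T1, -((r : ℝ) ^ 10 / 2) < wk (fn n) l t) ∧
  (∀ i, ∀ t ≤ T1, |wk (fn (perp u i)) l t| ≤ (r : ℝ) ^ 12) ∧
  (∀ t : ℕ, t ≤ T1 → |wk (fn u) l t - g * t| ≤ (r : ℝ) ^ 12) ∧
  (∀ t : ℕ, t ≤ T → g / 2 * t - (r : ℝ) ^ 12 ≤ wk (fn u) l t) ∧
  (∀ t, 1 ≤ t → t ≤ T → 0 < wk (fn u) l t) ∧
  (∀ t < t0, wk (fn u) l t < wk (fn u) l t0) ∧
  (∀ t, t0 < t → t ≤ T → wk (fn u) l t0 < wk (fn u) l t)

/-- the path `S` around time `j` and `j + k` in terms of the three strands -/
def Rel3 {d : ℕ} (S : ℕ → V d) (j k m : ℕ) (lA lB lC : List (D d)) : Prop :=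
  (∀ t ≤ j, S (j - t) = S j - pos lA t) ∧ (∀ t ≤ k, S (j + k - t) = S (j + k) - pos lB t) ∧
  (∀ t ≤ m, S (j + k + t) = S (j + k) + pos lC t)

/-- explicit constant for the lengths of the outer strands -/
noncomputable def MM (g gB D : ℝ) : ℝ := 2 * (gB * D + 2) / g

/-- explicit cut time of the past strand -/
noncomputable def t0f (g gB : ℝ) (r k : ℕ) : ℕ := ⌊(gB * k - 3 / 2 * (r : ℝ) ^ 15) / g⌋₊

/-- finite horizon good event, first type (two cut times) -/
def Q1 {d : ℕ} (j k T : ℕ) (S : ℕ → V d) : Prop :=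
  CutT S j T ∧ CutT S (j + k) T ∧ (∀ s < j, S s ≠ S j)

/-- finite horizon good event, second type -/
def Q2 {d : ℕ} (u : Fin d → ℝ) (r j k t0 T : ℕ) (S : ℕ → V d) : Prop :=
  1 ≤ t0 ∧ t0 ≤ j ∧ CutT S (j - t0) T ∧ CutT S (j + k) T ∧ (∀ s < j, S s ≠ S j) ∧
  (∀ t, j - t0 ≤ t → t ≤ j → (r : ℝ) ^ 15 ≤ ip u (S t - S (j + k))) ∧
  (∀ t, j - t0 ≤ t → t ≤ j + k → ∀ i, |ip (perp u i) (S t - S (j + k))| ≤ 2 * (r : ℝ) ^ 12)

end Pool.Agent.Helper51.BW
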