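import Pool.Agent.Helper51.BW.Base

/-!
# The quantities of the problem
-/

open MeasureTheory Filter Topology

namespace Pool.Agent.Helper51.BW

/-- Euclidean norm -/
noncomputable def nrm {d : ℕ} (a : Fin d → ℝ) : ℝ := Real.sqrt (∑ j, a j ^ 2)

/-- the unit vector `ℓ = lhat / |lhat|` -/
noncomputable def ell {d : ℕ} (p : D d → ℝ) (j : Fin d) : ℝ := lhat p j / nrm (lhat p)

/-- `β = exp |lhat|` -/
noncomputable def beta {d : ℕ} (p : D d → ℝ) : ℝ := Real.exp (nrm (lhat p))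

/-- `φ(t) = E exp(-t X_1 · ℓ)` where the first step `X_1` has law `p0` and `ℓ` belongs to `p` -/
noncomputable def phi {d : ℕ} (p0 p : D d → ℝ) (t : ℝ) : ℝ :=
  ∑ e, p0 e * Real.exp (-(t * ip (ell p) (dir e)))

/-- Condition 1 of the problem -/
structure Condition1 {d : ℕ} (p : ℕ → D d → ℝ) : Prop where
  drift_nonneg : ∀ j, 0 ≤ drift (p 0) j
  drift_pos : ∀ j : Fin d, (j : ℕ) = 0 → 0 < drift (p 0) j
  pos : ∀ i e, 0 < p i e
  dir_pos : ∀ i, 1 ≤ i → 0 < ∑ j, drift (p 0) j * ell (p i) j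

lemma sum_fn {d : ℕ} (p : D d → ℝ) (a : Fin d → ℝ) :
    ∑ e, p e * fn a e = ∑ j, drift p j * a j := by
  have h1 : ∀ (j : Fin d) (b : Bool), fn a (j, b) = (if b then 1 else -1) * a j := by
    intro j b
    unfold fn ip dir
    rw [Finset.sum_eq_single j]
    · cases b <;> simp
    · intro j' _ hj'
      simp [hj']
    · simp
  rw [Fintype.sum_prod_type]
  refine Finset.sum_congr rfl fun j _ => ?_
  simp only [Fintype.sum_bool, h1, drift]
  simp
  ring

lemma cond_pos {d : ℕ} (p : ℕ → D d → ℝ) (hc : Condition1 p) (m : ℕ) (hm : 1 ≤ m) :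
    0 < nrm (lhat (p m)) ∧ 0 < ∑ e, p 0 e * fn (lhat (p m)) e := by
  have h := hc.dir_pos m hm
  rw [sum_fn]
  have hn0 : 0 ≤ nrm (lhat (p m)) := Real.sqrt_nonneg _
  rcases hn0.eq_or_lt with h0 | h0
  · exfalso
    have h1 : ∑ j, drift (p 0) j * ell (p m) j = 0 :=
      Finset.sum_eq_zero fun j _ => by unfold ell; rw [← h0]; simp
    linarith
  · refine ⟨h0, ?_⟩
    have h1 : ∑ j, drift (p 0) j * lhat (p m) j =
        nrm (lhat (p m)) * ∑ j, drift (p 0) j * ell (p m) j := by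
      rw [Finset.mul_sum]
      refine Finset.sum_congr rfl fun j _ => ?_
      unfold ell
      field_simp
    rw [h1]
    exact mul_pos h0 h

lemma cond_crit {d : ℕ} (p0 p : D d → ℝ) (t : ℝ) (hn : 0 < nrm (lhat p)) (hroot : phi p0 p t = 1)
    (hcrit : beta p = Real.exp t) : ∑ e, p0 e * Real.exp (-(fn (lhat p) e)) = 1 := by
  have ht : nrm (lhat p) = t := Real.exp_injective hcrit
  rw [← hroot]
  unfold phi
  refine Finset.sum_congr rfl fun e _ => ?_
  congr 3
  unfold fn ip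
  rw [← ht, Finset.mul_sum]
  refine Finset.sum_congr rfl fun j _ => ?_
  unfold ell
  field_simp

end Pool.Agent.Helper51.BW
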