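import Pool.Agent.Helper51.BW.Base

/-!
# Assembly: the speed is zero at the critical point
-/

open MeasureTheory Filter Topology

namespace Pool.Agent.Helper51.BW.Main

/-- contradiction between the two bounds -/
lemma avg_contra {a : ℕ → ℕ → ℝ} (hnn : ∀ K j, 0 ≤ a K j) (hC : ∃ C : ℝ, ∀ K : ℕ, ∀ᶠ n : ℕ in atTop,
    ∑ j ∈ Finset.range n, a K j ≤ C * n)
    (hM : ∀ M : ℝ, ∃ K j0 : ℕ, ∀ j ≥ j0, M ≤ a K j) : False := by
  obtain ⟨C, hC⟩ := hC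
  obtain ⟨K, j0, hK⟩ := hM (2 * |C| + 2)
  obtain ⟨n0, hn0⟩ := eventually_atTop.1 (hC K)
  have h1 := hn0 (n0 + 2 * j0 + 1) (by omega)
  have h2 : ((n0 + 2 * j0 + 1 - j0 : ℕ) : ℝ) * (2 * |C| + 2) ≤
      ∑ j ∈ Finset.range (n0 + 2 * j0 + 1), a K j := by
    have h3 : ∑ j ∈ Finset.Ico j0 (n0 + 2 * j0 + 1), a K j ≤
        ∑ j ∈ Finset.range (n0 + 2 * j0 + 1), a K j := by
      refine Finset.sum_le_sum_of_subset_of_nonneg ?_ fun j _ _ => hnn K j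
      intro j hj
      rw [Finset.mem_Ico] at hj
      exact Finset.mem_range.2 hj.2
    refine le_trans ?_ h3
    have h4 : ∑ _j ∈ Finset.Ico j0 (n0 + 2 * j0 + 1), (2 * |C| + 2) ≤
        ∑ j ∈ Finset.Ico j0 (n0 + 2 * j0 + 1), a K j :=
      Finset.sum_le_sum fun j hj => hK j (Finset.mem_Ico.1 hj).1
    rwa [Finset.sum_const, Nat.card_Ico, nsmul_eq_mul] at h4
  have h5 : C * ((n0 + 2 * j0 + 1 : ℕ) : ℝ) ≤ |C| * ((n0 + 2 * j0 + 1 : ℕ) : ℝ) :=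
    mul_le_mul_of_nonneg_right (le_abs_self C) (Nat.cast_nonneg _)
  have h6 : ((n0 + 2 * j0 + 1 - j0 : ℕ) : ℝ) = n0 + j0 + 1 := by
    have : n0 + 2 * j0 + 1 - j0 = n0 + j0 + 1 := by omega
    rw [this]; push_cast; ring
  rw [h6] at h2
  push_cast at h1 h5
  have h7 : 0 ≤ |C| := abs_nonneg C
  have h8 : (0 : ℝ) ≤ n0 := Nat.cast_nonneg _
  have h9 : (0 : ℝ) ≤ j0 := Nat.cast_nonneg _
  nlinarith [mul_nonneg h7 h8, mul_nonneg h7 h9]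

lemma Ycnt_nonneg {d : ℕ} (K : ℕ) (S Y : ℕ → V d) (j : ℕ) : 0 ≤ Ycnt K S Y j := by
  unfold Ycnt
  split_ifs
  · exact Finset.sum_nonneg fun l _ => by split_ifs <;> norm_num
  · exact le_rfl

/-- the main theorem in internal form -/
theorem core (hREG : S_REG) (hAVG : S_AVG) (hLOW1 : S_LOW1) (hLOW2 : S_LOW2) (hTILT : S_TILT)
    (hCASES : S_CASES) (d : ℕ) (hd : 2 ≤ d) (Ω : Type) [MeasurableSpace Ω] (μ : Measure Ω)
    [IsProbabilityMeasure μ] (p : ℕ → D d → ℝ) (X : ℕ → ℕ → Ω → V d) (hp : ∀ i e, 0 < p i e)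
    (hp1 : ∀ i, ∑ e, p i e = 1) (hX : IsIterated μ p X) (i : ℕ) (hi : 1 ≤ i)
    (hpos : ∀ m, 1 ≤ m → m ≤ i → 0 < ∑ e, p 0 e * fn (lhat (p m)) e)
    (hcrit : ∑ e, p 0 e * Real.exp (-(fn (lhat (p i)) e)) = 1) (v : Fin d → ℝ)
    (hv : ∀ᵐ ω ∂μ, Tendsto (fun n : ℕ => fun j => (X i n ω j : ℝ) / n) atTop (𝓝 v)) :
    v = 0 := by
  by_contra hv0
  have hR := hREG d Ω μ p X hp hp1 hX i v hv0 hv
  obtain ⟨C, hC⟩ := hAVG d Ω μ p X hp hp1 hX i v hv0 hv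
  have ht := hTILT d (p 0) (lhat (p i)) (hp 0) (hp1 0) hcrit (hpos i hi le_rfl)
  have hq : ∀ e, 0 < p 0 e * Real.exp (-(fn (lhat (p i)) e)) :=
    fun e => mul_pos (hp 0 e) (Real.exp_pos _)
  have hlow : ∀ M : ℝ, ∃ K j0 : ℕ, ∀ j ≥ j0,
      M ≤ ∫ ω, Ycnt K (fun n => X 0 n ω) (fun n => X i n ω) j ∂μ := by
    rcases hCASES d hd (p 0) (fun e => p 0 e * Real.exp (-(fn (lhat (p i)) e))) (lhat (p i))
      (hp 0) hq (hpos i hi le_rfl) ht with h | h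
    · exact hLOW1 d Ω μ p X hp hp1 hX i hi hR hcrit h
    · exact hLOW2 d Ω μ p X hp hp1 hX i hi hR hpos hcrit h
  exact avg_contra (a := fun K j => ∫ ω, Ycnt K (fun n => X 0 n ω) (fun n => X i n ω) j ∂μ)
    (fun K j => integral_nonneg fun ω => Ycnt_nonneg _ _ _ _) ⟨C, hC⟩ hlow

end Pool.Agent.Helper51.BW.Main
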