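import Pool.Agent.Helper51.BW.Defs

/-!
# Statements of the parts (swarm BW, MP_ef0d6f_pr)
Deliver `theorem main : S_XXX` (the parts may take earlier statements as hypotheses where the
blueprint says so) in `Pool/Agent/<You>/BW/<PART>.lean`.
-/

open MeasureTheory Filter Topology

namespace Pool.Agent.Helper51.BW

/-! ## group W : walk estimates -/

/-- exponential bound below a line -/
def S_LIN : Prop := ∀ (α : Type) [Fintype α] (p f : α → ℝ), (∀ e, 0 ≤ p e) → ∑ e, p e = 1 →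
  0 < ∑ e, p e * f e →
  ∃ s > 0, ∀ (T : ℕ) (z : ℝ), Pr p T (fun l => ∃ t ≤ T, wk f l t ≤ -z) ≤ Real.exp (-(s * z))

/-- Hoeffding with maximum -/
def S_DEV : Prop := ∀ (α : Type) [Fintype α] (p f : α → ℝ), (∀ e, 0 ≤ p e) → ∑ e, p e = 1 →
  ∑ e, p e * f e = 0 → ∀ b > 0, (∀ e, |f e| ≤ b) →
  ∀ (T : ℕ) (z : ℝ), 1 ≤ T → 0 ≤ z →
    Pr p T (fun l => ∃ t ≤ T, z ≤ |wk f l t|) ≤ 2 * Real.exp (-(z ^ 2 / (2 * b ^ 2 * T)))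

/-- Kolmogorov -/
def S_KOL : Prop := ∀ (α : Type) [Fintype α] (p f : α → ℝ), (∀ e, 0 ≤ p e) → ∑ e, p e = 1 →
  ∑ e, p e * f e = 0 → (∀ e, |f e| ≤ 1) →
  ∀ (T : ℕ) (H : ℝ), 0 < H → Pr p T (fun l => ∃ t ≤ T, H ≤ |wk f l t|) ≤ T / H ^ 2

/-- a centered walk started at `z` stays positive up to time `M R^2` with probability `≥ c z/R` -/
def S_STAY : Prop := ∀ (α : Type) [Fintype α] (p f : α → ℝ), (∀ e, 0 ≤ p e) → ∑ e, p e = 1 →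
  ∑ e, p e * f e = 0 → (∀ e, |f e| ≤ 1) → ∀ M > 0, ∃ c > 0, ∀ (R z : ℝ) (T1 T : ℕ),
    1 ≤ R → 0 < z → z ≤ R → (T1 : ℝ) ≤ M * R ^ 2 → T1 ≤ T →
    c * z / R ≤ Pr p T (fun l => ∀ t ≤ T1, 0 < z + wk f l t)

/-- the same started at `0`, from time `1` on -/
def S_STAY0 : Prop := ∀ (α : Type) [Fintype α] (p f : α → ℝ), (∀ e, 0 ≤ p e) → ∑ e, p e = 1 →
  ∑ e, p e * f e = 0 → (∀ e, |f e| ≤ 1) → (∃ e, 0 < p e ∧ 0 < f e) →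
  ∀ M > 0, ∃ c > 0, ∀ (R : ℝ) (T1 T : ℕ),
    1 ≤ R → (T1 : ℝ) ≤ M * R ^ 2 → T1 ≤ T →
    c / R ≤ Pr p T (fun l => ∀ t, 1 ≤ t → t ≤ T1 → 0 < wk f l t)

/-- expected number of `k` of order `R^2` such that the walk is positive up to time `k` and
above `R` at time `k` -/
def S_CNT : Prop := ∀ (α : Type) [Fintype α] (p f : α → ℝ), (∀ e, 0 ≤ p e) → ∑ e, p e = 1 →
  ∑ e, p e * f e = 0 → (∀ e, |f e| ≤ 1) → (∃ e, 0 < p e ∧ 0 < f e) →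
  ∃ c > 0, ∃ c1 > 0, ∃ D > c1, ∃ R0 : ℝ, ∀ R ≥ R0,
    c * R ≤ ∑ k ∈ Finset.Icc ⌈c1 * R ^ 2⌉₊ ⌊D * R ^ 2⌋₊,
      Pr p k (fun l => (∀ t, 1 ≤ t → t ≤ k → 0 < wk f l t) ∧ R ≤ wk f l k)

/-- positive drift: positive for ever with positive probability -/
def S_POS1 : Prop := ∀ (α : Type) [Fintype α] (p f : α → ℝ), (∀ e, 0 ≤ p e) → ∑ e, p e = 1 →
  0 < ∑ e, p e * f e →
  ∃ c > 0, ∀ T, c ≤ Pr p T (fun l => ∀ t, 1 ≤ t → t ≤ T → 0 < wk f l t)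

/-- positive drift, both ends -/
def S_POS2 : Prop := ∀ (α : Type) [Fintype α] (p f : α → ℝ), (∀ e, 0 ≤ p e) → ∑ e, p e = 1 →
  0 < ∑ e, p e * f e →
  ∃ c > 0, ∀ k, c ≤ Pr p k (fun l => (∀ t, 1 ≤ t → t ≤ k → 0 < wk f l t) ∧
    (∀ t < k, wk f l t < wk f l k))

/-- future strand -/
def S_EC : Prop := ∀ (d : ℕ) (p : D d → ℝ) (n u : Fin d → ℝ) (g : ℝ), (∀ e, 0 < p e) →
  ∑ e, p e = 1 → ∑ e, p e * fn n e = 0 → (∀ e, |fn n e| ≤ 1) → (∃ e, 0 < fn n e) →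
  0 < g → ∑ e, p e * fn u e = g →
  ∀ M > 0, ∃ c > 0, ∃ r0 : ℕ, ∀ r ≥ r0, ∀ T1 T : ℕ, (T1 : ℝ) ≤ M * (r : ℝ) ^ 20 → T1 ≤ T →
    c / (r : ℝ) ^ 10 ≤ Pr p T (EvC n u g r T1 T)

/-- middle strand -/
def S_EB : Prop := ∀ (d : ℕ) (p : D d → ℝ) (n u : Fin d → ℝ) (gB : ℝ), (∀ e, 0 < p e) →
  ∑ e, p e = 1 → ∑ e, p e * fn n e = 0 → (∀ e, |fn n e| ≤ 1) → (∃ e, 0 < fn n e) →
  0 < gB → gB ≤ 1 → (∀ e, |fn u e| ≤ 1) → ∑ e, p e * fn u e = -gB →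
  (∀ i, ∑ e, p e * fn (perp u i) e = 0) → (∀ i e, |fn (perp u i) e| ≤ 2) →
  ∃ c > 0, ∃ c1 > 0, ∃ D > c1, ∀ C2 > 0, ∃ r0 : ℕ, ∀ r ≥ r0,
    c * (r : ℝ) ^ 10 ≤ ∑ k ∈ Finset.Icc ⌈c1 * (r : ℝ) ^ 20⌉₊ ⌊D * (r : ℝ) ^ 20⌋₊,
      Pr p k (EvB n u gB C2 r k)

/-- past strand -/
def S_EA : Prop := ∀ (d : ℕ) (p : D d → ℝ) (n u : Fin d → ℝ) (g : ℝ), (∀ e, 0 < p e) →
  ∑ e, p e = 1 → ∑ e, p e * fn n e = 0 → (∀ e, |fn n e| ≤ 1) →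
  0 < g → g ≤ 1 → (∀ e, |fn u e| ≤ 1) → ∑ e, p e * fn u e = g →
  (∀ i, ∑ e, p e * fn (perp u i) e = 0) → (∀ i e, |fn (perp u i) e| ≤ 2) →
  ∀ M > 0, ∃ c > 0, ∃ r0 : ℕ, ∀ r ≥ r0, ∀ t0 T1 T : ℕ, (T1 : ℝ) ≤ M * (r : ℝ) ^ 20 →
    r ≤ t0 → t0 + r ≤ T1 → T1 ≤ T → c ≤ Pr p T (EvA n u g r t0 T1 T)

/-- tilting: at the critical point the tilted law has drift of negative scalar product with
`lhat` -/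
def S_TILT : Prop := ∀ (d : ℕ) (p : D d → ℝ) (h : Fin d → ℝ), (∀ e, 0 < p e) →
  ∑ e, p e = 1 → ∑ e, p e * Real.exp (-(fn h e)) = 1 → 0 < ∑ e, p e * fn h e →
  ∑ e, p e * Real.exp (-(fn h e)) * fn h e < 0

/-- two nonzero drifts: a common half space or opposite directions -/
def S_CASES : Prop := ∀ (d : ℕ), 2 ≤ d → ∀ (p q : D d → ℝ) (h : Fin d → ℝ),
  (∀ e, 0 < p e) → (∀ e, 0 < q e) →
  0 < ∑ e, p e * fn h e → ∑ e, q e * fn h e < 0 →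
  (∃ n : Fin d → ℝ, 0 < ∑ e, p e * fn n e ∧ 0 < ∑ e, q e * fn n e) ∨
  (∃ (n u : Fin d → ℝ) (g gB : ℝ), 0 < g ∧ 0 < gB ∧ ∑ j, u j ^ 2 = 1 ∧ ∑ j, n j ^ 2 = 1 ∧
    ∑ j, n j * u j = 0 ∧ (∀ j, drift p j = g * u j) ∧ (∀ j, drift q j = -gB * u j))

/-- the functionals of the second case satisfy the hypotheses of EA, EB, EC -/
def S_FUN : Prop := ∀ (d : ℕ) (p q : D d → ℝ) (n u : Fin d → ℝ) (g gB : ℝ),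
  (∀ e, 0 < p e) → (∀ e, 0 < q e) → ∑ e, p e = 1 → ∑ e, q e = 1 →
  ∑ j, u j ^ 2 = 1 → ∑ j, n j ^ 2 = 1 → ∑ j, n j * u j = 0 →
  (∀ j, drift p j = g * u j) → (∀ j, drift q j = -gB * u j) → 0 < g → 0 < gB →
  (∀ e, |fn n e| ≤ 1) ∧ (∀ e, |fn u e| ≤ 1) ∧ (∀ i e, |fn (perp u i) e| ≤ 2) ∧
  (∃ e, 0 < fn n e) ∧ g ≤ 1 ∧ gB ≤ 1 ∧
  ∑ e, p e * fn n e = 0 ∧ ∑ e, q e * fn n e = 0 ∧ ∑ e, p e * fn u e = g ∧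
  ∑ e, q e * fn u e = -gB ∧ (∀ i, ∑ e, p e * fn (perp u i) e = 0) ∧
  (∀ i, ∑ e, q e * fn (perp u i) e = 0)

/-- factorization over the three strands, with tilting of the middle one -/
def S_FAC : Prop := ∀ (d : ℕ) (p : D d → ℝ) (h : Fin d → ℝ) (j k m : ℕ)
  (Q QA QB QC : List (D d) → Prop), (∀ e, 0 ≤ p e) →
  (∀ lA lB lC, lA.length = j → lB.length = k → lC.length = m →
    QA lA → QB lB → QC lC → Q (lA.reverse ++ lB.reverse ++ lC)) →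
  Pr p j QA * Pr (fun e => p e * Real.exp (-(fn h e))) k QB * Pr p m QC ≤
    Ex p (j + k + m) (fun L => ind (Q L) * Real.exp (ip h (pos L j - pos L (j + k))))

/-- first type, walk estimate -/
def S_TYPE1 : Prop := ∀ (d : ℕ) (p : D d → ℝ) (h n : Fin d → ℝ), (∀ e, 0 < p e) →
  ∑ e, p e = 1 → ∑ e, p e * Real.exp (-(fn h e)) = 1 →
  0 < ∑ e, p e * fn n e → 0 < ∑ e, p e * Real.exp (-(fn h e)) * fn n e →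
  ∃ c > 0, ∀ j k T, 1 ≤ k → j + k ≤ T → c ≤ Ex p T (fun L =>
      ind (Q1 j k T (pos L)) * Real.exp (ip h (pos L j - pos L (j + k))))

/-- numerical conditions on `t0` -/
def S_GEO1 : Prop := ∀ (g gB c1 D : ℝ), 0 < g → g ≤ 1 → 0 < gB → gB ≤ 1 → 0 < c1 → c1 < D →
  ∃ r0 : ℕ, ∀ r ≥ r0, ∀ k : ℕ, c1 * (r : ℝ) ^ 20 ≤ k → (k : ℝ) ≤ D * (r : ℝ) ^ 20 →
    r ≤ t0f g gB r k ∧ t0f g gB r k + r ≤ ⌊MM g gB D * (r : ℝ) ^ 20⌋₊ ∧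
    (k : ℝ) + t0f g gB r k ≤ (D + MM g gB D) * (r : ℝ) ^ 20

/-- geometry of the three strands in the second case: `j + k` is a cut time -/
def S_GEO2 : Prop := ∀ (d : ℕ) (n u : Fin d → ℝ) (g gB c1 D : ℝ), ∑ j, u j ^ 2 = 1 →
  0 < g → g ≤ 1 → 0 < gB → gB ≤ 1 → 0 < c1 → c1 < D →
  ∃ r0 : ℕ, ∀ r ≥ r0, ∀ k : ℕ, c1 * (r : ℝ) ^ 20 ≤ k → (k : ℝ) ≤ D * (r : ℝ) ^ 20 →
    ∀ (j m : ℕ), ⌊MM g gB D * (r : ℝ) ^ 20⌋₊ ≤ j → ⌊MM g gB D * (r : ℝ) ^ 20⌋₊ ≤ m →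
    ∀ (S : ℕ → V d) (lA lB lC : List (Pool.Agent.Helper51.BW.D d)), Rel3 S j k m lA lB lC →
      EvA n u g r (t0f g gB r k) ⌊MM g gB D * (r : ℝ) ^ 20⌋₊ j lA →
      EvB n u gB (4 / gB) r k lB →
      EvC n u g r ⌊MM g gB D * (r : ℝ) ^ 20⌋₊ m lC →
      CutT S (j + k) (j + k + m)

/-- geometry of the three strands in the second case: `j - t0` is a cut time
(may assume `CutT S (j + k) (j + k + m)`) -/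
def S_GEO3 : Prop := ∀ (d : ℕ) (n u : Fin d → ℝ) (g gB c1 D : ℝ), ∑ j, u j ^ 2 = 1 →
  0 < g → g ≤ 1 → 0 < gB → gB ≤ 1 → 0 < c1 → c1 < D →
  ∃ r0 : ℕ, ∀ r ≥ r0, ∀ k : ℕ, c1 * (r : ℝ) ^ 20 ≤ k → (k : ℝ) ≤ D * (r : ℝ) ^ 20 →
    ∀ (j m : ℕ), ⌊MM g gB D * (r : ℝ) ^ 20⌋₊ ≤ j → ⌊MM g gB D * (r : ℝ) ^ 20⌋₊ ≤ m →
    t0f g gB r k ≤ ⌊MM g gB D * (r : ℝ) ^ 20⌋₊ →
    ∀ (S : ℕ → V d) (lA lB lC : List (Pool.Agent.Helper51.BW.D d)), Rel3 S j k m lA lB lC →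
      EvA n u g r (t0f g gB r k) ⌊MM g gB D * (r : ℝ) ^ 20⌋₊ j lA →
      EvB n u gB (4 / gB) r k lB →
      EvC n u g r ⌊MM g gB D * (r : ℝ) ^ 20⌋₊ m lC →
      CutT S (j + k) (j + k + m) →
      CutT S (j - t0f g gB r k) (j + k + m)

/-- geometry of the three strands in the second case: new point, levels and tube -/
def S_GEO4 : Prop := ∀ (d : ℕ) (n u : Fin d → ℝ) (g gB c1 D : ℝ), ∑ j, u j ^ 2 = 1 →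
  0 < g → g ≤ 1 → 0 < gB → gB ≤ 1 → 0 < c1 → c1 < D →
  ∃ r0 : ℕ, ∀ r ≥ r0, ∀ k : ℕ, c1 * (r : ℝ) ^ 20 ≤ k → (k : ℝ) ≤ D * (r : ℝ) ^ 20 →
    ∀ (j m : ℕ), ⌊MM g gB D * (r : ℝ) ^ 20⌋₊ ≤ j → ⌊MM g gB D * (r : ℝ) ^ 20⌋₊ ≤ m →
    t0f g gB r k ≤ ⌊MM g gB D * (r : ℝ) ^ 20⌋₊ →
    ∀ (S : ℕ → V d) (lA lB lC : List (Pool.Agent.Helper51.BW.D d)), Rel3 S j k m lA lB lC →
      EvA n u g r (t0f g gB r k) ⌊MM g gB D * (r : ℝ) ^ 20⌋₊ j lA →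
      EvB n u gB (4 / gB) r k lB →
      (∀ s < j, S s ≠ S j) ∧
      (∀ t, j - t0f g gB r k ≤ t → t ≤ j → (r : ℝ) ^ 15 ≤ ip u (S t - S (j + k))) ∧
      (∀ t, j - t0f g gB r k ≤ t → t ≤ j + k → ∀ i,
        |ip (perp u i) (S t - S (j + k))| ≤ 2 * (r : ℝ) ^ 12)

/-- second type, walk estimate: the sum over one window is bounded below -/
def S_TYPE2 : Prop := ∀ (d : ℕ) (p : D d → ℝ) (h n u : Fin d → ℝ) (g gB : ℝ),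
  (∀ e, 0 < p e) → ∑ e, p e = 1 → ∑ e, p e * Real.exp (-(fn h e)) = 1 →
  0 < g → 0 < gB → ∑ j, u j ^ 2 = 1 → ∑ j, n j ^ 2 = 1 → ∑ j, n j * u j = 0 →
  (∀ j, drift p j = g * u j) →
  (∀ j, drift (fun e => p e * Real.exp (-(fn h e))) j = -gB * u j) →
  ∃ c > 0, ∃ c1 > 0, ∃ D > c1, ∃ C > 0, ∃ M > 0, ∃ r0 : ℕ, ∃ t0 : ℕ → ℕ → ℕ, ∀ r ≥ r0,
    (∀ k : ℕ, c1 * (r : ℝ) ^ 20 ≤ k → (k : ℝ) ≤ D * (r : ℝ) ^ 20 →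
      (k : ℝ) + t0 r k ≤ C * (r : ℝ) ^ 20) ∧
    ∀ j T : ℕ, M * (r : ℝ) ^ 20 ≤ j → j + M * (r : ℝ) ^ 20 ≤ T →
      c ≤ ∑ k ∈ Finset.Icc ⌈c1 * (r : ℝ) ^ 20⌉₊ ⌊D * (r : ℝ) ^ 20⌋₊, Ex p T
        (fun L => ind (Q2 u r j k (t0 r k) T (pos L)) *
          Real.exp (ip h (pos L j - pos L (j + k))))

/-! ## group N : networks -/

/-- minimiser of the energy: harmonic, values in `[0,1]` -/
def S_NET : Prop := ∀ (α : Type) (U B : Finset α) (c : α → α → ℝ) (x : α),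
  (∀ z z', c z z' = c z' z) → (∀ z z', 0 ≤ c z z') → x ∈ U → B ⊆ U → x ∉ B →
  ∃ q : α → ℝ, (∀ z, 0 ≤ q z ∧ q z ≤ 1) ∧ q x = 0 ∧ (∀ z ∈ B, q z = 1) ∧
    (∀ z ∈ U, z ≠ x → z ∉ B → ∑ z' ∈ U, c z z' * (q z' - q z) = 0) ∧
    (∀ f : α → ℝ, f x = 0 → (∀ z ∈ B, f z = 1) → En U c q ≤ En U c f)

/-- flow out of `x` = energy -/
def S_FLX : Prop := ∀ (α : Type) (U B : Finset α) (c : α → α → ℝ) (x : α) (q : α → ℝ),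
  (∀ z z', c z z' = c z' z) → x ∈ U → B ⊆ U → x ∉ B → q x = 0 → (∀ z ∈ B, q z = 1) →
  (∀ z ∈ U, z ≠ x → z ∉ B → ∑ z' ∈ U, c z z' * (q z' - q z) = 0) →
  ∑ z' ∈ U, c x z' * q z' = En U c q

/-- difference of a function along a connected set is bounded by its energy -/
def S_PTH : Prop := ∀ (α : Type) (U K : Finset α) (c : α → α → ℝ) (q : α → ℝ) (c0 : ℝ)
  (w x : α), (∀ z z', c z z' = c z' z) → (∀ z z', 0 ≤ c z z') → 0 < c0 → K ⊆ U → w ∈ K →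
  Relation.ReflTransGen (fun z z' => z ∈ K ∧ z' ∈ K ∧ c0 ≤ c z z') w x →
  |q w - q x| ≤ K.card * Real.sqrt (En U c q / c0)

/-- basic facts on the conductances -/
def S_CND : Prop := ∀ (d : ℕ) (p : D d → ℝ) (G : V d → V d → Prop) (pm : ℝ), 0 < pm →
  (∀ e, pm ≤ p e) → ∑ e, p e = 1 → (∀ x y, G x y → G y x) →
  (∀ z z', 0 ≤ cnd p G z z') ∧ (∀ z z', cnd p G z z' = cnd p G z' z) ∧
  (∀ z e, G z (z + dir e) → cnd p G z (z + dir e) = p e * Real.exp (ip (lhat p) z)) ∧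
  (∀ z e, ¬ G z (z + dir e) → cnd p G z (z + dir e) = 0) ∧
  (∀ z z', (∀ e, z' ≠ z + dir e) → cnd p G z z' = 0) ∧
  (∀ (U : Finset (V d)) z, ∑ z' ∈ U, cnd p G z z' ≤ Real.exp (ip (lhat p) z)) ∧
  (∀ z e, trans p G z e * (∑ e', cnd p G z (z + dir e')) = cnd p G z (z + dir e)) ∧
  (∀ z e, G z (z + dir e) → pm * Real.exp (ip (lhat p) z) ≤ ∑ e', cnd p G z (z + dir e')) ∧
  (∀ z, (∀ e, ¬ G z (z + dir e)) → ∀ e, trans p G z e = 0) ∧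
  (∀ z e, 0 ≤ trans p G z e) ∧ (∀ z, ∑ e, trans p G z e ≤ 1)

/-- an edge of the trace crossing a cut time is the bridge -/
def S_CUTE : Prop := ∀ (d : ℕ) (S : ℕ → V d) (b : ℕ), IsCut S b → ∀ x y, Trace S x y →
  (∃ t ≤ b, S t = x) → (∃ t, b < t ∧ S t = y) → x = S b ∧ y = S (b + 1)

/-- certificate for one intermediate walk -/
def S_STG1 : Prop := ∀ (d : ℕ) (p : D d → ℝ) (pm Γ : ℝ) (S : ℕ → V d) (G : V d → V d → Prop)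
  (a b : ℕ) (x : V d) (K B : Finset (V d)), 0 < pm → (∀ e, pm ≤ p e) → ∑ e, p e = 1 →
  PathHyp S → (∀ x y, G x y → Trace S x y) → (∀ x y, G x y → G y x) → a < b →
  IsCut S a → IsCut S b → (∀ z ∈ B, ∃ t, a < t ∧ t ≤ b ∧ S t = z) → S b ∈ B →
  (∀ z ∈ K, ∃ t, a ≤ t ∧ t ≤ b ∧ S t = z) → Disjoint K B → S a ∈ K → x ∈ K →
  Relation.ReflTransGen (fun z z' => z ∈ K ∧ z' ∈ K ∧ G z z') (S a) x →
  (∀ z ∈ K, ∀ z' ∈ B, ip (lhat p) z' + Γ ≤ ip (lhat p) z) →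
  ∃ q : V d → ℝ, (∀ z, 0 ≤ q z ∧ q z ≤ 1) ∧ (∀ z ∈ B, q z = 1) ∧ q x = 0 ∧
    (∀ t ≤ b, S t ∉ B → S t ≠ x → ∑ e, trans p G (S t) e * q (S t + dir e) ≤ q (S t)) ∧
    q 0 ≤ ((b : ℝ) - a + 1) ^ 2 * Real.sqrt (Real.exp (-Γ) / pm)

/-- certificate for the last walk, first type (`a = j`) -/
def S_STG2a : Prop := ∀ (d : ℕ) (p : D d → ℝ) (pm : ℝ) (S : ℕ → V d)
  (G : V d → V d → Prop) (j bM : ℕ) (bs : Finset ℕ), 0 < pm → (∀ e, pm ≤ p e) →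
  ∑ e, p e = 1 → PathHyp S → (∀ x y, G x y → Trace S x y) → (∀ x y, G x y → G y x) →
  IsCut S j → bM ∈ bs → (∀ b ∈ bs, j < b ∧ b ≤ bM ∧ IsCut S b) →
  ∃ (q : V d → ℝ) (ρ : ℝ), 0 ≤ ρ ∧ (∀ z, 0 ≤ q z ∧ q z ≤ 1) ∧ q (S (bM + 1)) = 1 ∧
    q (S j) = 0 ∧ q 0 = 0 ∧
    (∀ t ≤ bM, S t ≠ S j → ∑ e, trans p G (S t) e * q (S t + dir e) ≤ q (S t)) ∧
    ∑ e, trans p G (S j) e * q (S j + dir e) ≤ ρ ∧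
    ρ * (pm * ∑ b ∈ bs, Real.exp (ip (lhat p) (S j - S b))) ≤ 1

/-- certificate for the last walk, second type -/
def S_STG2b : Prop := ∀ (d : ℕ) (p : D d → ℝ) (pm Γ : ℝ) (S : ℕ → V d)
  (G : V d → V d → Prop) (a j b1 bM : ℕ) (bs : Finset ℕ) (K B : Finset (V d)), 0 < pm →
  (∀ e, pm ≤ p e) →
  ∑ e, p e = 1 → PathHyp S → (∀ x y, G x y → Trace S x y) → (∀ x y, G x y → G y x) →
  a < j → IsCut S a → b1 ∈ bs → bM ∈ bs → (∀ b ∈ bs, j < b ∧ b ≤ bM ∧ IsCut S b) →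
  (∀ z ∈ B, ∃ t, a < t ∧ t ≤ b1 ∧ S t = z) → S b1 ∈ B →
  (∀ z ∈ K, ∃ t, a ≤ t ∧ t ≤ b1 ∧ S t = z) → Disjoint K B → S a ∈ K → S j ∈ K →
  Relation.ReflTransGen (fun z z' => z ∈ K ∧ z' ∈ K ∧ G z z') (S a) (S j) →
  (∀ z ∈ K, ∀ z' ∈ B, ip (lhat p) z' + Γ ≤ ip (lhat p) z) →
  ∃ (q : V d → ℝ) (ρ : ℝ), 0 ≤ ρ ∧ (∀ z, 0 ≤ q z ∧ q z ≤ 1) ∧ q (S (bM + 1)) = 1 ∧
    q (S j) = 0 ∧ q 0 ≤ ((b1 : ℝ) - a + 1) ^ 2 * Real.sqrt (Real.exp (-Γ) / pm) ∧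
    (∀ t ≤ bM, S t ≠ S j → ∑ e, trans p G (S t) e * q (S t + dir e) ≤ q (S t)) ∧
    ∑ e, trans p G (S j) e * q (S j + dir e) ≤ ρ ∧
    ρ * (pm * ∑ b ∈ bs, Real.exp (ip (lhat p) (S j - S b))) ≤ 1

/-- connectivity of the part of the trace used before the first visit of `B` -/
def S_CONN : Prop := ∀ (d : ℕ) (S Y : ℕ → V d) (a j b n : ℕ) (B : Finset (V d)), PathHyp S →
  a < j → j ≤ b → IsCut S a → IsCut S b → Y 0 = 0 → (∀ m, Trace S (Y m) (Y (m + 1))) →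
  (∀ z ∈ B, ∃ t, a < t ∧ t ≤ b ∧ S t = z) → S b ∈ B → Y n = S j → (∀ s ≤ n, Y s ∉ B) →
  Relation.ReflTransGen (fun z z' => ((∃ t, a ≤ t ∧ t ≤ b ∧ S t = z) ∧ z ∉ B) ∧
    ((∃ t, a ≤ t ∧ t ≤ b ∧ S t = z') ∧ z' ∉ B) ∧ Trace Y z z') (S a) (S j)

/-- a walk on the trace which leaves every finite set crosses every bridge -/
def S_CROSS : Prop := ∀ (d : ℕ) (S Y : ℕ → V d) (b : ℕ), PathHyp S → IsCut S b → Y 0 = 0 →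
  (∀ m, Trace S (Y m) (Y (m + 1))) → (∀ F : Finset (V d), ∃ n, Y n ∉ F) →
  ∃ n, Y n = S b ∧ Y (n + 1) = S (b + 1) ∧ ∀ s ≤ n, ∃ t ≤ b, Y s = S t

/-! ## group M : the walks on the probability space -/

/-- one step with a constant environment: certificate bounds the probability of few visits -/
def S_MAR : Prop := ∀ (d : ℕ) (Ω : Type) [MeasurableSpace Ω] (μ : Measure Ω)
  [IsProbabilityMeasure μ] (p : ℕ → D d → ℝ) (X : ℕ → ℕ → Ω → V d), (∀ i e, 0 < p i e) →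
  (∀ i, ∑ e, p i e = 1) → IsIterated μ p X → ∀ (i : ℕ) (E : Set Ω),
  MeasurableSet[past X i 0] E → ∀ (F B : Finset (V d)) (x : V d) (l : ℕ) (P : V d → D d → ℝ)
  (q : V d → ℝ) (ρ : ℝ), 1 ≤ l → 0 ∈ F → x ∈ F → Disjoint F B → 0 ≤ ρ →
  (∀ z, 0 ≤ q z ∧ q z ≤ 1) → (∀ z ∈ B, q z = 1) → q x = 0 →
  (∀ ω ∈ E, ∀ z ∈ F, ∀ e, trans (p i) (env X i ω) z e = P z e) →
  (∀ z ∈ F, ∀ e, z + dir e ∉ F → z + dir e ∉ B → P z e = 0) →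
  (∀ z ∈ F, z ≠ x → ∑ e, P z e * q (z + dir e) ≤ q z) →
  ∑ e, P x e * q (x + dir e) ≤ ρ →
  μ (E ∩ {ω | ∃ n, X i n ω ∈ B ∧ (∀ s < n, X i s ω ∉ B) ∧
    ((Finset.range n).filter (fun s => X i s ω = x)).card < l}) ≤
    ENNReal.ofReal (q 0 + ρ * ((l : ℝ) - 1)) * μ E

/-- the same with an environment dependent certificate -/
def S_ONE : Prop := ∀ (d : ℕ) (Ω : Type) [MeasurableSpace Ω] (μ : Measure Ω)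
  [IsProbabilityMeasure μ] (p : ℕ → D d → ℝ) (X : ℕ → ℕ → Ω → V d), (∀ i e, 0 < p i e) →
  (∀ i, ∑ e, p i e = 1) → IsIterated μ p X → ∀ (i : ℕ) (E : Set Ω),
  MeasurableSet[past X i 0] E → ∀ (F B : Finset (V d)) (x : V d) (l : ℕ) (η : ℝ),
  1 ≤ l → 0 ∈ F → x ∈ F → Disjoint F B → 0 ≤ η →
  (∀ ω ∈ E, ∃ (q : V d → ℝ) (ρ : ℝ), 0 ≤ ρ ∧ (∀ z, 0 ≤ q z ∧ q z ≤ 1) ∧
    (∀ z ∈ B, q z = 1) ∧ q x = 0 ∧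
    (∀ z ∈ F, ∀ e, z + dir e ∉ F → z + dir e ∉ B → trans (p i) (env X i ω) z e = 0) ∧
    (∀ z ∈ F, z ≠ x → ∑ e, trans (p i) (env X i ω) z e * q (z + dir e) ≤ q z) ∧
    ∑ e, trans (p i) (env X i ω) x e * q (x + dir e) ≤ ρ ∧
    q 0 + ρ * ((l : ℝ) - 1) ≤ η) →
  μ (E ∩ {ω | ∃ n, X i n ω ∈ B ∧ (∀ s < n, X i s ω ∉ B) ∧
    ((Finset.range n).filter (fun s => X i s ω = x)).card < l}) ≤ ENNReal.ofReal η * μ E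

/-- almost sure regularity -/
def S_REG : Prop := ∀ (d : ℕ) (Ω : Type) [MeasurableSpace Ω] (μ : Measure Ω)
  [IsProbabilityMeasure μ] (p : ℕ → D d → ℝ) (X : ℕ → ℕ → Ω → V d), (∀ i e, 0 < p i e) →
  (∀ i, ∑ e, p i e = 1) → IsIterated μ p X → ∀ (i : ℕ) (v : Fin d → ℝ), v ≠ 0 →
  (∀ᵐ ω ∂μ, Tendsto (fun n : ℕ => fun j => (X i n ω j : ℝ) / n) atTop (𝓝 v)) →
  ∀ᵐ ω ∂μ, Reg X i ω

/-- law of the first walk, finite horizon -/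
def S_LAW : Prop := ∀ (d : ℕ) (Ω : Type) [MeasurableSpace Ω] (μ : Measure Ω)
  [IsProbabilityMeasure μ] (p : ℕ → D d → ℝ) (X : ℕ → ℕ → Ω → V d), (∀ i e, 0 < p i e) →
  (∀ i, ∑ e, p i e = 1) → IsIterated μ p X → ∀ (T : ℕ) (F : (ℕ → V d) → ℝ),
  (∀ S S' : ℕ → V d, (∀ t ≤ T, S t = S' t) → F S = F S') →
  ∫ ω, F (fun n => X 0 n ω) ∂μ = Ex (p 0) T (fun L => F (pos L))

/-- infinite horizon as a limit -/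
def S_HOR : Prop := ∀ (d : ℕ) (Ω : Type) [MeasurableSpace Ω] (μ : Measure Ω)
  [IsProbabilityMeasure μ] (p : ℕ → D d → ℝ) (X : ℕ → ℕ → Ω → V d), (∀ i e, 0 < p i e) →
  (∀ i, ∑ e, p i e = 1) → IsIterated μ p X →
  ∀ (Q : ℕ → (ℕ → V d) → Prop) (T0 : ℕ) (f : (ℕ → V d) → ℝ),
  (∀ T S, Q (T + 1) S → Q T S) →
  (∀ T, T0 ≤ T → ∀ S S' : ℕ → V d, (∀ t ≤ T, S t = S' t) → Q T S → Q T S') →
  (∀ S S' : ℕ → V d, (∀ t ≤ T0, S t = S' t) → f S = f S') → (∀ S, 0 ≤ f S) →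
  Tendsto (fun T => Ex (p 0) T (fun L => ind (Q T (pos L)) * f (pos L))) atTop
    (𝓝 (∫ ω in {ω | ∀ T, T0 ≤ T → Q T (fun n => X 0 n ω)}, f (fun n => X 0 n ω) ∂μ))

/-- σ-algebra of the first walk -/
def sig0 {d : ℕ} {Ω : Type} (X : ℕ → ℕ → Ω → V d) : MeasurableSpace Ω :=
  ⨆ s : ℕ, MeasurableSpace.comap (X 0 s) inferInstance

/-- all intermediate walks visit `x` before the low sets -/
def S_HITM : Prop := ∀ (d : ℕ) (Ω : Type) [MeasurableSpace Ω] (μ : Measure Ω)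
  [IsProbabilityMeasure μ] (p : ℕ → D d → ℝ) (X : ℕ → ℕ → Ω → V d), (∀ i e, 0 < p i e) →
  (∀ i, ∑ e, p i e = 1) → IsIterated μ p X → ∀ (i : ℕ), (∀ᵐ ω ∂μ, Reg X i ω) →
  ∀ (s : ℕ → V d) (a j b : ℕ) (u : Fin d → ℝ) (θ : ℕ → ℝ) (Γ ε pm : ℝ) (E : Set Ω),
  a < j → j ≤ b → 0 < pm → (∀ m ≤ i, ∀ e, pm ≤ p m e) → MeasurableSet[sig0 X] E →
  (∀ ω ∈ E, (∀ t ≤ b, X 0 t ω = s t) ∧ IsCut (fun n => X 0 n ω) a ∧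
    IsCut (fun n => X 0 n ω) b) →
  (∀ t, a ≤ t → t ≤ j → θ 0 ≤ ip u (s t - s b)) → (∀ m ≤ i, 0 < θ m) →
  (∀ m < i, θ (m + 1) ≤ θ m) →
  (∀ m < i, ∀ t t', a ≤ t → t ≤ b → a ≤ t' → t' ≤ b → θ m ≤ ip u (s t - s b) →
    ip u (s t' - s b) < θ (m + 1) →
    ip (lhat (p (m + 1))) (s t') + Γ ≤ ip (lhat (p (m + 1))) (s t)) →
  ((b : ℝ) - a + 1) ^ 2 * Real.sqrt (Real.exp (-Γ) / pm) ≤ ε →
  ∀ m ≤ i, μ (E ∩ {ω | ¬ Hit (fun n => X m n ω) (s j) (lowSet s a b u (θ m))}) ≤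
    ENNReal.ofReal (m * ε) * μ E

/-- number of visits, first type -/
def S_QL1 : Prop := ∀ (d : ℕ) (Ω : Type) [MeasurableSpace Ω] (μ : Measure Ω)
  [IsProbabilityMeasure μ] (p : ℕ → D d → ℝ) (X : ℕ → ℕ → Ω → V d), (∀ i e, 0 < p i e) →
  (∀ i, ∑ e, p i e = 1) → IsIterated μ p X → ∀ (i : ℕ), 1 ≤ i → (∀ᵐ ω ∂μ, Reg X i ω) →
  ∀ (s : ℕ → V d) (j N : ℕ) (K : Finset ℕ) (pm : ℝ) (E : Set Ω) (l : ℕ),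
  0 < pm → (∀ m ≤ i, ∀ e, pm ≤ p m e) → MeasurableSet[sig0 X] E → K.Nonempty →
  (∀ k ∈ K, 1 ≤ k ∧ j + k + 1 ≤ N) →
  (∀ ω ∈ E, (∀ t ≤ N, X 0 t ω = s t) ∧ IsCut (fun n => X 0 n ω) j ∧
    ∀ k ∈ K, IsCut (fun n => X 0 n ω) (j + k)) → 1 ≤ l →
  (l : ℝ) - 1 ≤ pm / 4 * ∑ k ∈ K, Real.exp (ip (lhat (p i)) (s j - s (j + k))) →
  μ E / 2 ≤ μ (E ∩ {ω | HitsGE (fun n => X i n ω) l (s j)})

/-- number of visits, second type -/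
def S_QL2 : Prop := ∀ (d : ℕ) (Ω : Type) [MeasurableSpace Ω] (μ : Measure Ω)
  [IsProbabilityMeasure μ] (p : ℕ → D d → ℝ) (X : ℕ → ℕ → Ω → V d), (∀ i e, 0 < p i e) →
  (∀ i, ∑ e, p i e = 1) → IsIterated μ p X → ∀ (i : ℕ), 1 ≤ i → (∀ᵐ ω ∂μ, Reg X i ω) →
  ∀ (s : ℕ → V d) (a j k1 N : ℕ) (u : Fin d → ℝ) (θ : ℕ → ℝ) (Γ ε pm : ℝ) (K : Finset ℕ)
  (E : Set Ω) (l : ℕ),
  a < j → 0 < pm → (∀ m ≤ i, ∀ e, pm ≤ p m e) → MeasurableSet[sig0 X] E → k1 ∈ K →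
  (∀ k ∈ K, 1 ≤ k ∧ j + k + 1 ≤ N) →
  (∀ ω ∈ E, (∀ t ≤ N, X 0 t ω = s t) ∧ IsCut (fun n => X 0 n ω) a ∧
    ∀ k ∈ K, IsCut (fun n => X 0 n ω) (j + k)) →
  (∀ t, a ≤ t → t ≤ j → θ 0 ≤ ip u (s t - s (j + k1))) → (∀ m ≤ i, 0 < θ m) →
  (∀ m < i, θ (m + 1) ≤ θ m) →
  (∀ m < i, ∀ t t', a ≤ t → t ≤ j + k1 → a ≤ t' → t' ≤ j + k1 →
    θ m ≤ ip u (s t - s (j + k1)) → ip u (s t' - s (j + k1)) < θ (m + 1) →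
    ip (lhat (p (m + 1))) (s t') + Γ ≤ ip (lhat (p (m + 1))) (s t)) →
  (((j + k1 : ℕ) : ℝ) - a + 1) ^ 2 * Real.sqrt (Real.exp (-Γ) / pm) ≤ ε → i * ε ≤ 1 / 4 →
  1 ≤ l →
  (l : ℝ) - 1 ≤ pm / 4 * ∑ k ∈ K, Real.exp (ip (lhat (p i)) (s j - s (j + k))) →
  μ E / 2 ≤ μ (E ∩ {ω | HitsGE (fun n => X i n ω) l (s j)})

/-- lower bound of the truncated number of visits -/
def S_LOWR : Prop := ∀ (d : ℕ) (Ω : Type) [MeasurableSpace Ω] (μ : Measure Ω)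
  [IsProbabilityMeasure μ] (p : ℕ → D d → ℝ) (X : ℕ → ℕ → Ω → V d), (∀ i e, 0 < p i e) →
  (∀ i, ∑ e, p i e = 1) → IsIterated μ p X → ∀ (i : ℕ), (∀ᵐ ω ∂μ, Reg X i ω) →
  ∀ (pm : ℝ) (W : Finset ℕ), 0 < pm → (∀ e, pm ≤ p i e) → ∃ K0 : ℕ, ∀ K ≥ K0,
  ∀ (j N : ℕ) (Θ : ℕ → Set Ω), (∀ k ∈ W, MeasurableSet[sig0 X] (Θ k)) →
  (∀ k ∈ W, 1 ≤ k ∧ j + k + 1 ≤ N) →
  (∀ k ∈ W, ∀ ω ∈ Θ k, ∀ s < j, X 0 s ω ≠ X 0 j ω) →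
  (∀ (K' : Finset ℕ) (s : ℕ → V d) (E : Set Ω) (l : ℕ), K' ⊆ W → K'.Nonempty →
    MeasurableSet[sig0 X] E → (∀ ω ∈ E, (∀ t ≤ N, X 0 t ω = s t) ∧ ∀ k ∈ K', ω ∈ Θ k) →
    1 ≤ l → (l : ℝ) - 1 ≤ pm / 4 * ∑ k ∈ K', Real.exp (ip (lhat (p i)) (s j - s (j + k))) →
    μ E / 2 ≤ μ (E ∩ {ω | HitsGE (fun n => X i n ω) l (s j)})) →
  pm / 8 * ∑ k ∈ W, ∫ ω in Θ k, Real.exp (ip (lhat (p i)) (X 0 j ω - X 0 (j + k) ω)) ∂μ ≤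
    ∫ ω, Ycnt K (fun n => X 0 n ω) (fun n => X i n ω) j ∂μ

/-- deterministic counting -/
def S_DET : Prop := ∀ (d : ℕ) (S Y : ℕ → V d) (c0 : ℝ) (n0 : ℕ), PathHyp S → 0 < c0 →
  (∀ n ≥ n0, c0 * n ≤ ∑ j, |(Y n j : ℝ)|) →
  ∀ K n : ℕ, ∑ j ∈ Finset.range n, Ycnt K S Y j ≤ n0 + n / c0 + 1

/-- upper bound of the averages for a walk with nonzero speed -/
def S_AVG : Prop := ∀ (d : ℕ) (Ω : Type) [MeasurableSpace Ω] (μ : Measure Ω)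
  [IsProbabilityMeasure μ] (p : ℕ → D d → ℝ) (X : ℕ → ℕ → Ω → V d), (∀ i e, 0 < p i e) →
  (∀ i, ∑ e, p i e = 1) → IsIterated μ p X → ∀ (i : ℕ) (v : Fin d → ℝ), v ≠ 0 →
  (∀ᵐ ω ∂μ, Tendsto (fun n : ℕ => fun j => (X i n ω j : ℝ) / n) atTop (𝓝 v)) →
  ∃ C : ℝ, ∀ K : ℕ, ∀ᶠ n : ℕ in atTop,
    ∑ j ∈ Finset.range n, ∫ ω, Ycnt K (fun n => X 0 n ω) (fun n => X i n ω) j ∂μ ≤ C * n

/-- lower bound of the expectations, first type -/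
def S_LOW1 : Prop := ∀ (d : ℕ) (Ω : Type) [MeasurableSpace Ω] (μ : Measure Ω)
  [IsProbabilityMeasure μ] (p : ℕ → D d → ℝ) (X : ℕ → ℕ → Ω → V d), (∀ i e, 0 < p i e) →
  (∀ i, ∑ e, p i e = 1) → IsIterated μ p X → ∀ (i : ℕ), 1 ≤ i → (∀ᵐ ω ∂μ, Reg X i ω) →
  ∑ e, p 0 e * Real.exp (-(fn (lhat (p i)) e)) = 1 →
  (∃ n : Fin d → ℝ, 0 < ∑ e, p 0 e * fn n e ∧
    0 < ∑ e, p 0 e * Real.exp (-(fn (lhat (p i)) e)) * fn n e) →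
  ∀ M : ℝ, ∃ K j0 : ℕ, ∀ j ≥ j0,
    M ≤ ∫ ω, Ycnt K (fun n => X 0 n ω) (fun n => X i n ω) j ∂μ

/-- lower bound of the expectations, second type -/
def S_LOW2 : Prop := ∀ (d : ℕ) (Ω : Type) [MeasurableSpace Ω] (μ : Measure Ω)
  [IsProbabilityMeasure μ] (p : ℕ → D d → ℝ) (X : ℕ → ℕ → Ω → V d), (∀ i e, 0 < p i e) →
  (∀ i, ∑ e, p i e = 1) → IsIterated μ p X → ∀ (i : ℕ), 1 ≤ i → (∀ᵐ ω ∂μ, Reg X i ω) →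
  (∀ m, 1 ≤ m → m ≤ i → 0 < ∑ e, p 0 e * fn (lhat (p m)) e) →
  ∑ e, p 0 e * Real.exp (-(fn (lhat (p i)) e)) = 1 →
  (∃ (n u : Fin d → ℝ) (g gB : ℝ), 0 < g ∧ 0 < gB ∧ ∑ j, u j ^ 2 = 1 ∧ ∑ j, n j ^ 2 = 1 ∧
    ∑ j, n j * u j = 0 ∧ (∀ j, drift (p 0) j = g * u j) ∧
    (∀ j, drift (fun e => p 0 e * Real.exp (-(fn (lhat (p i)) e))) j = -gB * u j)) →
  ∀ M : ℝ, ∃ K j0 : ℕ, ∀ j ≥ j0,
    M ≤ ∫ ω, Ycnt K (fun n => X 0 n ω) (fun n => X i n ω) j ∂μ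

/-- gap of the potentials between two levels, in the tube -/
def S_GAP : Prop := ∀ (d : ℕ) (u h : Fin d → ℝ) (i : ℕ) (C : ℝ), ∑ j, u j ^ 2 = 1 → 1 ≤ i →
  0 < ∑ j, h j * u j → 0 < C → ∀ (pm ε : ℝ), 0 < pm → 0 < ε → ∃ r0 : ℕ, ∀ r ≥ r0,
  ∃ Γ0 : ℝ,
    (∀ z z' : V d, ∀ (θ θ' : ℝ), (r : ℝ) ^ 15 / (2 * i) ≤ θ - θ' → θ ≤ ip u z →
      ip u z' < θ' → (∀ l, |ip (perp u l) z| ≤ 2 * (r : ℝ) ^ 12) →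
      (∀ l, |ip (perp u l) z'| ≤ 2 * (r : ℝ) ^ 12) → ip h z' + Γ0 ≤ ip h z) ∧
    ∀ Γ ≥ Γ0, ∀ a b : ℕ, a ≤ b → (b : ℝ) - a ≤ C * (r : ℝ) ^ 20 →
      ((b : ℝ) - a + 1) ^ 2 * Real.sqrt (Real.exp (-Γ) / pm) ≤ ε

end Pool.Agent.Helper51.BW
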